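import Pool.Agent.Lib.MP_640417_ag.Gn.Compl

/-!
# MP_640417_ag, Dt, module AlgA (250 lines): Lie algebras of skew matrices with a small semisimple element, preparations

`H` is a Lie algebra of skew matrices, `C` an algebra commuting with it, such that every `H`-stable subspace has a projection in `C`
(`LData`). `ε` is an idempotent which commutes with `C`, `ε' = adj J ε` its adjoint, `ε ε' = ε' ε = 0`, and the ranges of `ε`, `ε'` are
irreducible under `C` (`EData`). `δ = ε - ε' ∈ H`, `r = 1 - ε - ε'`.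
* `comp`: `H` is stable under `[δ, .]`, which on `Matrix I I K` has the eigenvalues `-2, .., 2`; the eigencomponents of `X ∈ H` are
  `ε' X ε` (`-2`), `r X ε + ε' X r` (`-1`), `ε X ε + ε' X ε' + r X r` (`0`), `ε X r + r X ε'` (`1`), `ε X ε'` (`2`). They are linear
  combinations of `X, [δ, X], [δ, [δ, X]], ..` (five terms; characteristic zero), so in `H`.
* `schur`: `ε a ε` commutes with `C` and maps the range of `ε` to itself; it has an eigenvector there (`K` algebraically closed;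
  if `ε = 0` trivial), the eigenspace (in the range of `ε`) is stable under `C`, so everything.
* `schur2`: let `w0 = ε' a ε ≠ 0`, `w = ε' b ε`. The kernel of `w0` on the range of `ε` is stable under `C`, so `w0` is injective
  there, its range is stable under `C`, so it is the range of `ε'`. So `w0⁻¹ w` makes sense on the range of `ε`, has an
  eigenvalue `s`, and the kernel of `w - s w0` on the range of `ε` is not zero and stable under `C`, so everything.
* `gen_left`: let `a` commute with `C`. If `ε = 0` trivial (`a * 0 = 0`). Take `v = ε v ≠ 0`. `E = {x v | x ∈ L}` is stable under `H`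
  and contains `v = ε v`. Let `p ∈ C` be the projection to `E`: `a v = a p v = p a v ∈ E`, so `a v = x v` for some `x ∈ L`. The kernel of
  `(a - x) ε` on the range of `ε` is stable under `C` and not zero, so it is everything: `a ε = x ε = x ∈ L`.
-/

set_option autoImplicit false

namespace Pool.Agent.Lib.MP_640417_ag.Dt

open Matrix Pool.Agent.Lib.MP_640417_ag.Gn

variable {K : Type} [Field K] {I : Type} [Fintype I] [DecidableEq I]

/-- a Lie algebra of skew matrices which acts semisimply -/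
structure LData (J : Matrix I I K) (H : Submodule K (Matrix I I K))
    (C : Subalgebra K (Matrix I I K)) : Prop where
  det : J.det ≠ 0
  alt : Jᵀ = -J
  lie : ∀ X ∈ H, ∀ Y ∈ H, X * Y - Y * X ∈ H
  skew : ∀ X ∈ H, adj J X = -X
  cm : ∀ X ∈ H, Cm C X
  adjC : ∀ c ∈ C, adj J c ∈ C
  proj : ∀ E : Submodule K (I → K), (∀ X ∈ H, ∀ v ∈ E, X *ᵥ v ∈ E) →
    ∃ p ∈ C, (∀ v, p *ᵥ v ∈ E) ∧ ∀ v ∈ E, p *ᵥ v = v

/-- the range of `ε` is irreducible under `C` -/
def Irr (C : Subalgebra K (Matrix I I K)) (ε : Matrix I I K) : Prop :=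
  ∀ E : Submodule K (I → K), (∀ v ∈ E, ε *ᵥ v = v) → (∀ c ∈ C, ∀ v ∈ E, c *ᵥ v ∈ E) →
    E = ⊥ ∨ ∀ v, ε *ᵥ v ∈ E

/-- a small idempotent -/
structure EData (J : Matrix I I K) (H : Submodule K (Matrix I I K))
    (C : Subalgebra K (Matrix I I K)) (ε : Matrix I I K) : Prop where
  idem : ε * ε = ε
  cm : Cm C ε
  dual : ε * adj J ε = 0
  dual' : adj J ε * ε = 0
  irr : Irr C ε
  irr' : Irr C (adj J ε)
  mem : ε - adj J ε ∈ H

private theorem adj_sub' (J a b : Matrix I I K) : adj J (a - b) = adj J a - adj J b := by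
  simp only [adj, transpose_sub, mul_sub, sub_mul]

private theorem cm_mul {C : Subalgebra K (Matrix I I K)} {a b : Matrix I I K} (ha : Cm C a)
    (hb : Cm C b) : Cm C (a * b) := by
  intro c hc
  rw [mul_assoc, hb c hc, ← mul_assoc, ha c hc, mul_assoc]

private theorem cm_adj {J : Matrix I I K} {H : Submodule K (Matrix I I K)}
    {C : Subalgebra K (Matrix I I K)} (L : LData J H C) {a : Matrix I I K} (ha : Cm C a) :
    Cm C (adj J a) := by
  intro c hc
  have h1 := congrArg (adj J) (ha (adj J c) (L.adjC c hc))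
  rw [adj_mul L.det, adj_mul L.det, adj_adj L.det L.alt] at h1
  exact h1.symm

private theorem mat_ext {a b : Matrix I I K} (h : ∀ v, a *ᵥ v = b *ᵥ v) : a = b := by
  apply Matrix.toLin'.injective
  apply LinearMap.ext
  intro v
  rw [Matrix.toLin'_apply, Matrix.toLin'_apply]
  exact h v

/-- An intertwiner condition which holds at one vector of the range of `ε` holds everywhere. -/
private theorem irr_prop {C : Subalgebra K (Matrix I I K)} {ε a b : Matrix I I K}
    (hε : Cm C ε) (hirr : Irr C ε) (ha : Cm C a) (hb : Cm C b) {v : I → K} (hv : v ≠ 0)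
    (hv1 : ε *ᵥ v = v) (hv2 : a *ᵥ v = b *ᵥ v) : a * ε = b * ε := by
  let E : Submodule K (I → K) :=
    { carrier := {w | ε *ᵥ w = w ∧ a *ᵥ w = b *ᵥ w}
      add_mem' := by
        rintro x y ⟨h1, h2⟩ ⟨h3, h4⟩
        exact ⟨by rw [mulVec_add, h1, h3], by rw [mulVec_add, mulVec_add, h2, h4]⟩
      zero_mem' := ⟨mulVec_zero _, by rw [mulVec_zero, mulVec_zero]⟩
      smul_mem' := by
        rintro t x ⟨h1, h2⟩
        exact ⟨by rw [mulVec_smul, h1], by rw [mulVec_smul, mulVec_smul, h2]⟩ }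
  have h := hirr E (fun w hw => hw.1) (by
    rintro c hc w ⟨h1, h2⟩
    refine ⟨?_, ?_⟩
    · rw [mulVec_mulVec, hε c hc, ← mulVec_mulVec, h1]
    · rw [mulVec_mulVec, mulVec_mulVec, ha c hc, hb c hc, ← mulVec_mulVec, ← mulVec_mulVec, h2])
  rcases h with h | h
  · exfalso
    have h3 : v ∈ E := ⟨hv1, hv2⟩
    rw [h] at h3
    exact hv ((Submodule.mem_bot K).1 h3)
  · apply mat_ext
    intro w
    rw [← mulVec_mulVec, ← mulVec_mulVec]
    exact (h w).2

private theorem exists_fix {ε : Matrix I I K} (hi : ε * ε = ε) (h0 : ε ≠ 0) :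
    ∃ v : I → K, v ≠ 0 ∧ ε *ᵥ v = v := by
  by_contra hcon
  push Not at hcon
  apply h0
  apply mat_ext
  intro v
  rw [zero_mulVec]
  by_contra h1
  exact hcon _ h1 (by rw [mulVec_mulVec, hi])

private theorem exists_eig [IsAlgClosed K] {ε m : Matrix I I K} (hi : ε * ε = ε) (h0 : ε ≠ 0)
    (hm : ε * m = m) : ∃ (s : K) (v : I → K), v ≠ 0 ∧ ε *ᵥ v = v ∧ m *ᵥ v = s • v := by
  let V : Submodule K (I → K) := LinearMap.range (Matrix.toLin' ε)
  have hV : ∀ v ∈ V, (Matrix.toLin' m) v ∈ V := by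
    intro v _
    refine ⟨m *ᵥ v, ?_⟩
    rw [Matrix.toLin'_apply, Matrix.toLin'_apply, mulVec_mulVec, hm]
  obtain ⟨v0, h1, h2⟩ := exists_fix hi h0
  haveI : Nontrivial V := by
    refine ⟨⟨⟨v0, ⟨v0, by rw [Matrix.toLin'_apply, h2]⟩⟩, 0, ?_⟩⟩
    intro h
    exact h1 (congrArg Subtype.val h)
  obtain ⟨s, hs⟩ := Module.End.exists_eigenvalue ((Matrix.toLin' m).restrict hV)
  obtain ⟨v, hv⟩ := hs.exists_hasEigenvector
  refine ⟨s, v.1, ?_, ?_, ?_⟩
  · intro h
    exact hv.2 (Subtype.ext h)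
  · obtain ⟨u, hu⟩ := v.2
    rw [← hu, Matrix.toLin'_apply, mulVec_mulVec, hi]
  · have h3 := congrArg Subtype.val hv.apply_eq_smul
    rw [LinearMap.restrict_apply] at h3
    simpa [Matrix.toLin'_apply] using h3

variable [CharZero K] {J : Matrix I I K} {H : Submodule K (Matrix I I K)}
  {C : Subalgebra K (Matrix I I K)}

theorem EData.adj (L : LData J H C) {ε : Matrix I I K} (h : EData J H C ε) :
    EData J H C (adj J ε) where
  idem := by rw [← adj_mul L.det, h.idem]
  cm := cm_adj L h.cm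
  dual := by rw [adj_adj L.det L.alt, h.dual']
  dual' := by rw [adj_adj L.det L.alt, h.dual]
  irr := h.irr'
  irr' := by rw [adj_adj L.det L.alt]; exact h.irr
  mem := by
    rw [adj_adj L.det L.alt]
    have h1 := H.neg_mem h.mem
    rwa [neg_sub] at h1

private theorem comp_aux {H : Submodule K (Matrix I I K)}
    (lie : ∀ X ∈ H, ∀ Y ∈ H, X * Y - Y * X ∈ H) {e f : Matrix I I K} (ee : e * e = e)
    (ff : f * f = f) (ef : e * f = 0) (fe : f * e = 0) (hd : e - f ∈ H) {X : Matrix I I K}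
    (hX : X ∈ H) : f * X * e ∈ H ∧
      (1 - e - f) * X * e + f * X * (1 - e - f) ∈ H ∧
      e * X * (1 - e - f) + (1 - e - f) * X * f ∈ H ∧
      e * X * f ∈ H := by
  have ee' : ∀ x, e * (e * x) = e * x := fun x => by rw [← mul_assoc, ee]
  have ff' : ∀ x, f * (f * x) = f * x := fun x => by rw [← mul_assoc, ff]
  have ef' : ∀ x, e * (f * x) = 0 := fun x => by rw [← mul_assoc, ef, zero_mul]
  have fe' : ∀ x, f * (e * x) = 0 := fun x => by rw [← mul_assoc, fe, zero_mul]
  have h1 := lie _ hd _ hX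
  have h2 := lie _ hd _ h1
  have h3 := lie _ hd _ h2
  have h4 := lie _ hd _ h3
  have e2 : (24 : K) • (e * X * f) ∈ H := by
    have h5 := H.add_mem (H.sub_mem h4 h2) (H.smul_mem 2 (H.sub_mem h3 h1))
    convert h5 using 1
    simp only [mul_sub, sub_mul, mul_assoc, ee, ee', ff, ff', ef, ef', fe, fe', mul_zero,
      zero_mul, sub_zero, zero_sub, mul_neg, neg_mul, mul_add, add_mul, sub_neg_eq_add]
    module
  have e2' : (24 : K) • (f * X * e) ∈ H := by
    have h5 := H.sub_mem (H.sub_mem h4 h2) (H.smul_mem 2 (H.sub_mem h3 h1))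
    convert h5 using 1
    simp only [mul_sub, sub_mul, mul_assoc, ee, ee', ff, ff', ef, ef', fe, fe', mul_zero,
      zero_mul, sub_zero, zero_sub, mul_neg, neg_mul, mul_add, add_mul, sub_neg_eq_add]
    module
  have h24 : (24 : K) ≠ 0 := by norm_num
  have g2 : e * X * f ∈ H := by
    have h5 := H.smul_mem (24 : K)⁻¹ e2
    rwa [smul_smul, inv_mul_cancel₀ h24, one_smul] at h5
  have g2' : f * X * e ∈ H := by
    have h5 := H.smul_mem (24 : K)⁻¹ e2'
    rwa [smul_smul, inv_mul_cancel₀ h24, one_smul] at h5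
  refine ⟨g2', ?_, ?_, g2⟩
  · have h5 := H.sub_mem (H.sub_mem (H.smul_mem (2 : K)⁻¹ (H.sub_mem h2 h1))
      (H.smul_mem 3 g2')) g2
    convert h5 using 1
    simp only [mul_sub, sub_mul, mul_assoc, ee, ee', ff, ff', ef, ef', fe, fe', mul_zero,
      zero_mul, sub_zero, zero_sub, one_mul, mul_one, mul_neg, neg_mul, mul_add, add_mul,
      sub_neg_eq_add]
    module
  · have h5 := H.sub_mem (H.sub_mem (H.smul_mem (2 : K)⁻¹ (H.add_mem h1 h2)) g2')
      (H.smul_mem 3 g2)
    convert h5 using 1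
    simp only [mul_sub, sub_mul, mul_assoc, ee, ee', ff, ff', ef, ef', fe, fe', mul_zero,
      zero_mul, sub_zero, zero_sub, one_mul, mul_one, mul_neg, neg_mul, mul_add, add_mul,
      sub_neg_eq_add]
    module

theorem comp (L : LData J H C) {ε : Matrix I I K} (h : EData J H C ε) {X : Matrix I I K}
    (hX : X ∈ H) : adj J ε * X * ε ∈ H ∧
      (1 - ε - adj J ε) * X * ε + adj J ε * X * (1 - ε - adj J ε) ∈ H ∧
      ε * X * (1 - ε - adj J ε) + (1 - ε - adj J ε) * X * adj J ε ∈ H ∧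
      ε * X * adj J ε ∈ H :=
  comp_aux L.lie h.idem (by rw [← adj_mul L.det, h.idem]) h.dual h.dual' h.mem hX

variable [IsAlgClosed K]

theorem schur {ε : Matrix I I K} (h : EData J H C ε) {a : Matrix I I K} (ha : Cm C a) :
    ∃ s : K, ε * a * ε = s • ε := by
  by_cases h0 : ε = 0
  · exact ⟨0, by rw [h0]; simp⟩
  have hm : ε * (ε * a * ε) = ε * a * ε := by rw [← mul_assoc, ← mul_assoc, h.idem]
  obtain ⟨s, v, hv, h1, h2⟩ := exists_eig h.idem h0 hm
  refine ⟨s, ?_⟩
  have h3 := irr_prop (a := ε * a * ε) (b := s • (1 : Matrix I I K)) h.cm h.irr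
    (cm_mul (cm_mul h.cm ha) h.cm)
    (fun c _ => by rw [smul_mul_assoc, mul_smul_comm, one_mul, mul_one]) hv h1
    (by rw [h2, smul_mulVec, one_mulVec])
  rw [smul_mul_assoc, one_mul, mul_assoc, h.idem] at h3
  exact h3

theorem schur2 (L : LData J H C) {ε : Matrix I I K} (h : EData J H C ε) {a b : Matrix I I K}
    (ha : Cm C a) (hb : Cm C b) (h0 : adj J ε * a * ε ≠ 0) :
    ∃ s : K, adj J ε * b * ε = s • (adj J ε * a * ε) := by
  have hε : ε ≠ 0 := by
    rintro rfl
    exact h0 (by rw [mul_zero])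
  have hA := h.adj L
  have hcw : Cm C (adj J ε * a * ε) := cm_mul (cm_mul hA.cm ha) h.cm
  have hcw' : Cm C (adj J ε * b * ε) := cm_mul (cm_mul hA.cm hb) h.cm
  -- the range of `w0` is everything
  have hR : ∀ v, adj J ε *ᵥ v ∈ LinearMap.range (Matrix.toLin' (adj J ε * a * ε)) := by
    have h1 := h.irr' (LinearMap.range (Matrix.toLin' (adj J ε * a * ε))) (by
      rintro v ⟨w, rfl⟩
      rw [Matrix.toLin'_apply, mulVec_mulVec, ← mul_assoc, ← mul_assoc, hA.idem]) (by
      rintro c hc v ⟨w, rfl⟩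
      refine ⟨c *ᵥ w, ?_⟩
      rw [Matrix.toLin'_apply, Matrix.toLin'_apply, mulVec_mulVec, mulVec_mulVec, hcw c hc])
    rcases h1 with h1 | h1
    · exfalso
      apply h0
      rw [LinearMap.range_eq_bot] at h1
      exact (LinearEquiv.map_eq_zero_iff Matrix.toLin').1 h1
    · exact h1
  have hu : ∃ u : Matrix I I K, adj J ε * a * ε * u = adj J ε := by
    choose g hg using hR
    refine ⟨Matrix.of (fun i j => g (Pi.single j 1) i), ?_⟩
    ext i j
    have h1 := congrFun (hg (Pi.single j 1)) i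
    rw [Matrix.toLin'_apply, mulVec_single_one] at h1
    rw [Matrix.mul_apply]
    simpa [Matrix.mulVec, dotProduct] using h1
  obtain ⟨u, hu⟩ := hu
  have hm : ε * (ε * (u * (adj J ε * b * ε))) = ε * (u * (adj J ε * b * ε)) := by
    rw [← mul_assoc, h.idem]
  obtain ⟨s, v, hv, h1, h2⟩ := exists_eig h.idem hε hm
  refine ⟨s, ?_⟩
  have e1 : adj J ε * a * ε * ε = adj J ε * a * ε := by rw [mul_assoc, h.idem]
  have h3 : (adj J ε * b * ε) *ᵥ v = (s • (adj J ε * a * ε)) *ᵥ v := by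
    have h4 := congrArg (fun w => (adj J ε * a * ε) *ᵥ w) h2
    simp only [mulVec_mulVec, mulVec_smul] at h4
    rw [← mul_assoc, e1, ← mul_assoc, hu, ← mul_assoc, ← mul_assoc, hA.idem] at h4
    rw [h4, smul_mulVec]
  have h5 := irr_prop h.cm h.irr hcw' (a := adj J ε * b * ε) (b := s • (adj J ε * a * ε))
    (fun c hc => by rw [smul_mul_assoc, mul_smul_comm, hcw c hc]) hv h1 h3
  rw [smul_mul_assoc, e1, mul_assoc, h.idem] at h5
  exact h5

theorem gen_left (L : LData J H C) {ε : Matrix I I K} (h : EData J H C ε)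
    (P : Submodule K (Matrix I I K)) (hP : ∀ x ∈ P, Cm C x ∧ x * ε = x) (hε : ε ∈ P)
    (hH : ∀ X ∈ H, ∀ x ∈ P, X * x ∈ P) {a : Matrix I I K} (ha : Cm C a) : a * ε ∈ P := by
  by_cases h0 : ε = 0
  · rw [h0, mul_zero]
    exact P.zero_mem
  obtain ⟨v, hv, h1⟩ := exists_fix h.idem h0
  let E : Submodule K (I → K) :=
    { carrier := {w | ∃ x ∈ P, w = x *ᵥ v}
      add_mem' := by
        rintro _ _ ⟨x, hx, rfl⟩ ⟨y, hy, rfl⟩
        exact ⟨x + y, P.add_mem hx hy, by rw [add_mulVec]⟩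
      zero_mem' := ⟨0, P.zero_mem, by rw [zero_mulVec]⟩
      smul_mem' := by
        rintro t _ ⟨x, hx, rfl⟩
        exact ⟨t • x, P.smul_mem t hx, by rw [smul_mulVec]⟩ }
  obtain ⟨p, hp, hp1, hp2⟩ := L.proj E (by
    rintro X hX _ ⟨x, hx, rfl⟩
    exact ⟨X * x, hH X hX x hx, by rw [mulVec_mulVec]⟩)
  have hvE : v ∈ E := ⟨ε, hε, h1.symm⟩
  have h2 : a *ᵥ v ∈ E := by
    have h3 : a *ᵥ v = p *ᵥ (a *ᵥ v) := by
      rw [mulVec_mulVec, ← ha p hp, ← mulVec_mulVec, hp2 v hvE]
    rw [h3]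
    exact hp1 _
  obtain ⟨x, hx, h4⟩ := h2
  have h5 := irr_prop h.cm h.irr ha (hP x hx).1 hv h1 h4
  rw [h5, (hP x hx).2]
  exact hx

end Pool.Agent.Lib.MP_640417_ag.Dt
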