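import Pool.Agent.Lib.MP_640417_ag.Dt.AlgA

/-!
# MP_640417_ag, Dt, module AlgB (250 lines): Lie algebras of skew matrices with a small semisimple element, first part

Write `x*` for `adj J x` (`adj_mul`, `adj_adj`), `A` for the set of all matrices which commute with `C`, `ε' = ε*`, `r = 1 - ε - ε'`
(`r* = r`, `r ε = ε r = r ε' = ε' r = 0`). All `x`, `y` below are in `A`. `P = {x | x = r x ε, x - x* ∈ H}`, `Q = {y | y = r y ε', y - y* ∈ H}`.
For `X ∈ H` (`X* = - X`): `(r X ε)* = - ε' X r`, so by `comp` `r X ε ∈ P`, `r X ε' ∈ Q`. Claim `full_P`: `r a ε ∈ P` for all `a ∈ A`.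
(1) `x ∈ P`, `X ∈ H` imply `r X r x ∈ P`: `X - (comp. of weight ±1, ±2) = ε X ε + ε' X ε' + r X r =: X_0 ∈ H`, `ε X ε = s ε` (`schur`);
  `[X_0, x - x*] = (r X r x - s x) + (its negative adjoint) ∈ H`.
(2) Case A: `y w ∈ P` for all `y ∈ Q`, `w = ε' b ε`, `b ∈ A`. Then the space `K ε + P + ε' A ε` is stable under `H`: for `X ∈ H`:
  `X ε = s ε + r X ε + ε' X ε`; `X x = ε X r x + r X r x + ε' X r x` with `ε X r x = ε (X r x) ε ∈ K ε` (`schur`), `r X r x ∈ P` by (1);
  `X w = ε X ε' w + ε' X ε' w + r X ε' w`, the first in `K ε`, the last in `Q w ⊆ P`. By `gen_left` `a ε` is in this space, so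
  `r a ε ∈ P`.
(3) Suppose that `w0 = ε' X ε ≠ 0` for some `X ∈ H`. `w0 ∈ H` (`comp`). For `y ∈ Q`: `[w0, y - y*] = - w0 y* - y w0 ∈ H`, and
  `(y w0)* = w0* y* = - w0 y*` (`w0* = - w0` as `w0 ∈ H`), so `y w0 - (y w0)* = y w0 + w0 y* ∈ H`: `y w0 ∈ P`. By `schur2` every
  `w` is a multiple of `w0`, so we are in case A.
(4) Suppose that `w0 = x1* x ≠ 0` for some `x, x1 ∈ P`. Let `y ∈ Q`. `B = [y - y*, x1 - x1*] = - y x1* - y* x1 + x1 y* + x1* y ∈ H`
  (`y x1 = 0` etc.), `r B r = - y x1* + x1 y*`. By (1) `r B r x = - y x1* x + x1 y* x ∈ P`, and `y* x = ε y* x ε ∈ K ε`, so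
  `x1 y* x ∈ K x1 ⊆ P`. So `y w0 ∈ P`, and again by `schur2` case A.
(5) Otherwise `ε' X ε = 0` for all `X ∈ H` and `x1* x = 0` for all `x, x1 ∈ P`. Then `K ε + P` is stable under `H`: `X ε = s ε + r X ε`,
  `X x = ε X r x + r X r x + ε' X r x`, `ε' X r = - (r X ε)*` so the last term is `- x1* x = 0`. By `gen_left` `a ε ∈ K ε + P`, so
  `r a ε ∈ P`.
-/

set_option autoImplicit false

namespace Pool.Agent.Lib.MP_640417_ag.Dt

open Matrix Pool.Agent.Lib.MP_640417_ag.Gn

variable {K : Type} [Field K] {I : Type} [Fintype I] [DecidableEq I]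
  [CharZero K] {J : Matrix I I K} {H : Submodule K (Matrix I I K)}
  {C : Subalgebra K (Matrix I I K)} [IsAlgClosed K]

omit [CharZero K] [IsAlgClosed K] in
private theorem asc {a b c : Matrix I I K} (h : a * b = c) (z : Matrix I I K) :
    a * (b * z) = c * z := by rw [← mul_assoc, h]

omit [CharZero K] [IsAlgClosed K] in
private theorem asc0 {a b : Matrix I I K} (h : a * b = 0) (z : Matrix I I K) :
    a * (b * z) = 0 := by rw [← mul_assoc, h, zero_mul]

omit [CharZero K] [IsAlgClosed K] in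
private theorem cm_mulB {a b : Matrix I I K} (ha : Cm C a) (hb : Cm C b) : Cm C (a * b) := by
  intro c hc
  rw [mul_assoc, hb c hc, ← mul_assoc, ha c hc, mul_assoc]

omit [CharZero K] [IsAlgClosed K] in
private theorem cm_addB {a b : Matrix I I K} (ha : Cm C a) (hb : Cm C b) : Cm C (a + b) := by
  intro c hc
  rw [add_mul, mul_add, ha c hc, hb c hc]

omit [CharZero K] [IsAlgClosed K] in
private theorem cm_subB {a b : Matrix I I K} (ha : Cm C a) (hb : Cm C b) : Cm C (a - b) := by
  intro c hc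
  rw [sub_mul, mul_sub, ha c hc, hb c hc]

omit [CharZero K] [IsAlgClosed K] in
private theorem cm_smulB {a : Matrix I I K} (t : K) (ha : Cm C a) : Cm C (t • a) := by
  intro c hc
  rw [smul_mul_assoc, mul_smul_comm, ha c hc]

omit [CharZero K] [IsAlgClosed K] in
private theorem cm_adjB (L : LData J H C) {a : Matrix I I K} (ha : Cm C a) :
    Cm C (adj J a) := by
  intro c hc
  have h1 := congrArg (adj J) (ha (adj J c) (L.adjC c hc))
  rw [adj_mul L.det, adj_mul L.det, adj_adj L.det L.alt] at h1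
  exact h1.symm

omit [CharZero K] [IsAlgClosed K] in
private theorem adj_subB (J a b : Matrix I I K) : adj J (a - b) = adj J a - adj J b := by
  simp only [adj, transpose_sub, mul_sub, sub_mul]

omit [CharZero K] [IsAlgClosed K] in
private theorem adj_addB (J a b : Matrix I I K) : adj J (a + b) = adj J a + adj J b := by
  simp only [adj, transpose_add, mul_add, add_mul]

omit [CharZero K] [IsAlgClosed K] in
private theorem adj_smulB (J : Matrix I I K) (t : K) (a : Matrix I I K) :
    adj J (t • a) = t • adj J a := by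
  simp only [adj, transpose_smul, mul_smul_comm, smul_mul_assoc]

omit [CharZero K] [IsAlgClosed K] in
private theorem adj_zeroB (J : Matrix I I K) : adj J 0 = 0 := by
  simp only [adj, transpose_zero, mul_zero, zero_mul]

/-- the matrices `x = r x ε` with `x - x* ∈ H` -/
private def PS (J : Matrix I I K) (H : Submodule K (Matrix I I K))
    (C : Subalgebra K (Matrix I I K)) (ε : Matrix I I K) : Submodule K (Matrix I I K) where
  carrier := {x | Cm C x ∧ ε * x = 0 ∧ adj J ε * x = 0 ∧ x * ε = x ∧ x - adj J x ∈ H}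
  add_mem' := by
    rintro x y ⟨h1, h2, h3, h4, h5⟩ ⟨g1, g2, g3, g4, g5⟩
    refine ⟨cm_addB h1 g1, by rw [mul_add, h2, g2, add_zero], by rw [mul_add, h3, g3, add_zero],
      by rw [add_mul, h4, g4], ?_⟩
    rw [adj_addB, add_sub_add_comm]
    exact H.add_mem h5 g5
  zero_mem' := ⟨fun c _ => by rw [zero_mul, mul_zero], mul_zero _, mul_zero _, zero_mul _, by
    rw [adj_zeroB, sub_zero]; exact H.zero_mem⟩
  smul_mem' := by
    rintro t x ⟨h1, h2, h3, h4, h5⟩
    refine ⟨cm_smulB t h1, by rw [mul_smul_comm, h2, smul_zero],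
      by rw [mul_smul_comm, h3, smul_zero], by rw [smul_mul_assoc, h4], ?_⟩
    rw [adj_smulB, ← smul_sub]
    exact H.smul_mem t h5

/-- For `x` in `PS` and `X ∈ H` also `r X x` is in `PS`. -/
private theorem PS_step (L : LData J H C) {ε : Matrix I I K} (h : EData J H C ε)
    {X x : Matrix I I K} (hX : X ∈ H) (hx : x ∈ PS J H C ε) :
    (1 - ε - adj J ε) * X * x ∈ PS J H C ε := by
  obtain ⟨h1, h2, h3, h4, h5⟩ := hx
  obtain ⟨k1, k2, k3, k4⟩ := comp L h hX
  obtain ⟨s, hs⟩ := schur h (L.cm X hX)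
  have ee := h.idem
  have ef := h.dual
  have fe := h.dual'
  have ff : adj J ε * adj J ε = adj J ε := by rw [← adj_mul L.det, h.idem]
  have hsX := L.skew X hX
  have hff : adj J ε * X * adj J ε = -(s • adj J ε) := by
    have e1 := congrArg (adj J) hs
    rw [adj_mul L.det, adj_mul L.det, hsX, adj_smulB] at e1
    rw [← e1, neg_mul, mul_neg, neg_neg, mul_assoc]
  have aa := adj_adj L.det L.alt ε
  obtain ⟨f, hf⟩ : ∃ f, f = adj J ε := ⟨_, rfl⟩
  rw [← hf] at ef fe ff h3 k1 k2 k3 k4 aa hff ⊢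
  -- the adjoint of `x`
  have x1 : f * adj J x = adj J x := by
    rw [hf, ← adj_mul L.det, h4]
  have x2 : adj J x * f = 0 := by
    rw [hf, ← adj_mul L.det, h2, adj_zeroB]
  have x3 : adj J x * ε = 0 := by
    conv_lhs => rw [← aa]
    rw [← adj_mul L.det, h3, adj_zeroB]
  have x4 : ε * adj J x = 0 := by rw [← x1, ← mul_assoc, ef, zero_mul]
  have x5 : x * f = 0 := by rw [← h4, mul_assoc, ef, mul_zero]
  have y1 : x * (X * ε) = s • x := by
    have : x * (X * ε) = x * (ε * X * ε) := by
      rw [← mul_assoc, ← mul_assoc, ← mul_assoc, h4]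
    rw [this, hs, mul_smul_comm, h4]
  have y2 : f * (X * adj J x) = -(s • adj J x) := by
    have : f * (X * adj J x) = f * X * f * adj J x := by
      rw [mul_assoc, mul_assoc, x1]
    rw [this, hff, neg_mul, smul_mul_assoc, x1]
  refine ⟨?_, ?_, ?_, ?_, ?_⟩
  · have c1 : Cm C (1 - ε - f) := by
      have c0 : Cm C (1 : Matrix I I K) := fun c _ => by rw [one_mul, mul_one]
      have cf : Cm C f := by rw [hf]; exact cm_adjB L h.cm
      exact cm_subB (cm_subB c0 h.cm) cf
    exact cm_mulB (cm_mulB c1 (L.cm X hX)) h1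
  · simp only [mul_sub, sub_mul, mul_assoc, one_mul, asc ee, asc0 ef, sub_self, sub_zero]
  · rw [← hf]
    simp only [mul_sub, sub_mul, mul_assoc, one_mul, asc0 fe, asc ff, sub_self, sub_zero]
  · rw [mul_assoc, h4]
  · have hX0 := H.sub_mem (H.sub_mem (H.sub_mem (H.sub_mem hX k1) k2) k3) k4
    have h6 := H.add_mem (L.lie _ hX0 _ h5) (H.smul_mem s h5)
    convert h6 using 1
    rw [adj_mul L.det, adj_mul L.det, hsX, adj_subB, adj_subB]
    have hone : adj J (1 : Matrix I I K) = 1 := by
      simp only [adj, transpose_one, mul_one]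
      exact Matrix.nonsing_inv_mul _ (isUnit_iff_ne_zero.2 L.det)
    rw [hone, aa, ← hf]
    simp only [mul_sub, sub_mul, mul_assoc, one_mul, mul_one, asc ee, asc ff, asc0 ef, asc0 fe,
      h2, h3, h4, x1, x2, x3, x4, x5, y1, y2, asc h4, asc x1, asc0 x2, asc0 x3, asc0 x4, asc0 x5,
      mul_zero, zero_mul, sub_zero, zero_sub, mul_neg, neg_mul, mul_add, add_mul, sub_neg_eq_add,
      asc0 h2, asc0 h3, smul_sub, add_zero, zero_add, neg_zero]
    module

/-- For `X ∈ H` the matrix `r X ε` is in `PS`. -/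
private theorem PS_of (L : LData J H C) {ε : Matrix I I K} (h : EData J H C ε)
    {X : Matrix I I K} (hX : X ∈ H) : (1 - ε - adj J ε) * X * ε ∈ PS J H C ε := by
  obtain ⟨k1, k2, k3, k4⟩ := comp L h hX
  have ee := h.idem
  have ef := h.dual
  have fe := h.dual'
  have ff : adj J ε * adj J ε = adj J ε := by rw [← adj_mul L.det, h.idem]
  have hsX := L.skew X hX
  have aa := adj_adj L.det L.alt ε
  have cf := cm_adjB L h.cm
  have hone : adj J (1 : Matrix I I K) = 1 := by
    simp only [adj, transpose_one, mul_one]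
    exact Matrix.nonsing_inv_mul _ (isUnit_iff_ne_zero.2 L.det)
  obtain ⟨f, hf⟩ : ∃ f, f = adj J ε := ⟨_, rfl⟩
  rw [← hf] at ef fe ff k1 k2 k3 k4 aa cf ⊢
  refine ⟨?_, ?_, ?_, ?_, ?_⟩
  · have c1 : Cm C (1 - ε - f) := by
      have c0 : Cm C (1 : Matrix I I K) := fun c _ => by rw [one_mul, mul_one]
      exact cm_subB (cm_subB c0 h.cm) cf
    exact cm_mulB (cm_mulB c1 (L.cm X hX)) h.cm
  · simp only [mul_sub, sub_mul, mul_assoc, one_mul, asc ee, asc0 ef, sub_self, sub_zero]
  · rw [← hf]
    simp only [mul_sub, sub_mul, mul_assoc, one_mul, asc0 fe, asc ff, sub_self, sub_zero]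
  · rw [mul_assoc, ee]
  · convert k2 using 1
    rw [adj_mul L.det, adj_mul L.det, hsX, adj_subB, adj_subB, hone, aa, ← hf]
    simp only [mul_sub, sub_mul, mul_assoc, one_mul, mul_one, mul_neg, neg_mul]
    module

/-- `P` is everything as soon as `y w ∈ P` for all `y` in the dual space and `w = ε' b ε`. -/
private theorem caseA (L : LData J H C) {ε : Matrix I I K} (h : EData J H C ε)
    (hA : ∀ y ∈ PS J H C (adj J ε), ∀ b : Matrix I I K, Cm C b →
      y * (adj J ε * b * ε) ∈ PS J H C ε) {a : Matrix I I K} (ha : Cm C a) :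
    (1 - ε - adj J ε) * a * ε - adj J ((1 - ε - adj J ε) * a * ε) ∈ H := by
  have ee := h.idem
  have ef := h.dual
  have fe := h.dual'
  have ff : adj J ε * adj J ε = adj J ε := by rw [← adj_mul L.det, h.idem]
  have aa := adj_adj L.det L.alt ε
  have h' := h.adj L
  let M : Submodule K (Matrix I I K) :=
    { carrier := {x | Cm C x ∧ x * ε = x ∧ (1 - ε - adj J ε) * x ∈ PS J H C ε}
      add_mem' := by
        rintro x y ⟨h1, h2, h3⟩ ⟨g1, g2, g3⟩
        refine ⟨cm_addB h1 g1, by rw [add_mul, h2, g2], ?_⟩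
        rw [mul_add]
        exact (PS J H C ε).add_mem h3 g3
      zero_mem' := by
        refine ⟨fun c _ => by rw [zero_mul, mul_zero], zero_mul _, ?_⟩
        rw [mul_zero]
        exact (PS J H C ε).zero_mem
      smul_mem' := by
        rintro t x ⟨h1, h2, h3⟩
        refine ⟨cm_smulB t h1, by rw [smul_mul_assoc, h2], ?_⟩
        rw [mul_smul_comm]
        exact (PS J H C ε).smul_mem t h3 }
  have key : a * ε ∈ M := by
    refine gen_left L h M (fun x hx => ⟨hx.1, hx.2.1⟩) ⟨h.cm, ee, ?_⟩ ?_ ha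
    · have : (1 - ε - adj J ε) * ε = 0 := by
        rw [sub_mul, sub_mul, one_mul, ee, fe, sub_self, sub_zero]
      rw [this]
      exact (PS J H C ε).zero_mem
    · rintro X hX x ⟨h1, h2, h3⟩
      refine ⟨cm_mulB (L.cm X hX) h1, by rw [mul_assoc, h2], ?_⟩
      obtain ⟨s, hs⟩ := schur h h1
      have e1 := PS_step L h hX h3
      have e2 := hA _ (PS_of L h' hX) x h1
      have e3 := (PS J H C ε).smul_mem s (PS_of L h hX)
      have e4 := (PS J H C ε).add_mem ((PS J H C ε).add_mem e1 e2) e3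
      convert e4 using 1
      have hs' : ε * x = s • ε := by rw [← h2, ← mul_assoc, hs]
      rw [aa]
      have e5 : (1 - ε - adj J ε) * X * ε * x = s • ((1 - ε - adj J ε) * X * ε) := by
        rw [mul_assoc, hs', mul_smul_comm]
      rw [← e5]
      have e6 : adj J ε * x * ε = adj J ε * x := by rw [mul_assoc, h2]
      rw [e6]
      have e7 : (1 - adj J ε - ε) * X * adj J ε * (adj J ε * x) =
          (1 - ε - adj J ε) * X * adj J ε * x := by
        rw [mul_assoc, mul_assoc _ (adj J ε) x, ← mul_assoc (adj J ε) (adj J ε) x, ff]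
        congr 2
        abel
      rw [e7]
      simp only [mul_sub, sub_mul, mul_assoc, one_mul]
      abel
  have h9 := key.2.2.2.2.2.2
  rw [mul_assoc]
  exact h9

theorem full_P (L : LData J H C) {ε : Matrix I I K} (h : EData J H C ε) {a : Matrix I I K}
    (ha : Cm C a) : (1 - ε - adj J ε) * a * ε - adj J ((1 - ε - adj J ε) * a * ε) ∈ H := by
  have ee := h.idem
  have ef := h.dual
  have fe := h.dual'
  have ff : adj J ε * adj J ε = adj J ε := by rw [← adj_mul L.det, h.idem]
  have aa := adj_adj L.det L.alt ε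
  have h' := h.adj L
  by_cases hc3 : ∃ X ∈ H, adj J ε * X * ε ≠ 0
  · -- case (3)
    obtain ⟨X, hX, hX0⟩ := hc3
    apply caseA L h _ ha
    intro y hy b hb
    obtain ⟨s, hs⟩ := schur2 L h (L.cm X hX) hb hX0
    rw [hs, mul_smul_comm]
    apply Submodule.smul_mem
    have k1 := (comp L h hX).1
    obtain ⟨g1, g2, g3, g4, g5⟩ := hy
    rw [aa] at g3
    have y1 : adj J y * ε = 0 := by
      conv_lhs => rw [← aa]
      rw [← adj_mul L.det, g2, adj_zeroB]
    have y2 : adj J y * adj J ε = 0 := by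
      rw [← adj_mul L.det, g3, adj_zeroB]
    have w1 : adj J (adj J ε * X * ε) = -(adj J ε * X * ε) := by
      rw [adj_mul L.det, adj_mul L.det, aa, L.skew X hX, neg_mul, mul_neg, mul_assoc]
    refine ⟨cm_mulB g1 (cm_mulB (cm_mulB h'.cm (L.cm X hX)) h.cm), ?_, ?_, ?_, ?_⟩
    · rw [← mul_assoc, g3, zero_mul]
    · rw [← mul_assoc, g2, zero_mul]
    · simp only [mul_assoc, ee]
    · have h6 := H.neg_mem (L.lie _ k1 _ g5)
      convert h6 using 1
      rw [adj_mul L.det, w1]
      simp only [mul_sub, sub_mul, mul_assoc, g2, g3, y1, y2, asc0 g2, asc0 g3, asc0 y1, asc0 y2,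
        mul_zero, neg_mul]
      abel
  by_cases hc4 : ∃ x ∈ PS J H C ε, ∃ x1 ∈ PS J H C ε, adj J x1 * x ≠ 0
  · obtain ⟨x, hx, x1, hx1, h0⟩ := hc4
    have hx' := hx
    have hx1' := hx1
    obtain ⟨a1, a2, a3, a4, a5⟩ := hx
    obtain ⟨b1, b2, b3, b4, b5⟩ := hx1
    have c1 : adj J ε * adj J x1 = adj J x1 := by rw [← adj_mul L.det, b4]
    have c2 : adj J x1 * adj J ε = 0 := by rw [← adj_mul L.det, b2, adj_zeroB]
    have c3 : adj J x1 * ε = 0 := by
      conv_lhs => rw [← aa]
      rw [← adj_mul L.det, b3, adj_zeroB]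
    have hw : adj J ε * (adj J x1 * x) * ε = adj J x1 * x := by
      rw [mul_assoc, mul_assoc, a4, ← mul_assoc, c1]
    have hcw : Cm C (adj J x1 * x) := cm_mulB (cm_adjB L b1) a1
    apply caseA L h _ ha
    intro y hy b hb
    obtain ⟨s, hs⟩ := schur2 L h hcw hb (by rw [hw]; exact h0)
    rw [hs, mul_smul_comm, hw]
    apply Submodule.smul_mem
    obtain ⟨g1, g2, g3, g4, g5⟩ := hy
    rw [aa] at g3
    have y1 : adj J y * ε = 0 := by
      conv_lhs => rw [← aa]
      rw [← adj_mul L.det, g2, adj_zeroB]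
    have y2 : adj J y * adj J ε = 0 := by
      rw [← adj_mul L.det, g3, adj_zeroB]
    have y3 : ε * adj J y = adj J y := by
      conv_lhs => rw [← aa]
      rw [← adj_mul L.det, g4]
    have hB := L.lie _ g5 _ b5
    have e1 := PS_step L h hB hx'
    obtain ⟨t, ht⟩ := schur h (cm_mulB (cm_adjB L g1) a1)
    have ht' : adj J y * x = t • ε := by
      rw [← ht, mul_assoc, mul_assoc, a4, ← mul_assoc, y3]
    have e2 := (PS J H C ε).sub_mem ((PS J H C ε).smul_mem t hx1') e1
    convert e2 using 1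
    have z1 : y * x1 = 0 := by rw [← g4, mul_assoc, b3, mul_zero]
    have z2 : x1 * y = 0 := by rw [← b4, mul_assoc, g3, mul_zero]
    have z3 : adj J x1 * adj J y = 0 := by
      rw [← adj_mul L.det, z1, adj_zeroB]
    have z4 : adj J y * adj J x1 = 0 := by
      rw [← adj_mul L.det, z2, adj_zeroB]
    have z5 : y * x = 0 := by rw [← g4, mul_assoc, a3, mul_zero]
    have z6 : x1 * x = 0 := by rw [← b4, mul_assoc, a2, mul_zero]
    simp only [mul_sub, sub_mul, mul_assoc, one_mul, z1, z2, z3, z4, z5, z6, asc0 z1, asc0 z2,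
      asc0 z3, asc0 z4, ht', mul_smul_comm, b4, b2, b3, asc0 b2, asc0 b3, g2, g3, asc0 g2,
      asc0 g3, asc c1, asc y3, mul_zero, zero_mul, sub_zero, zero_sub, smul_zero, neg_zero,
      mul_neg, neg_mul, sub_neg_eq_add, asc0 ef, asc0 fe, ef, fe, y3, c1]
    abel
  · push Not at hc3 hc4
    let M : Submodule K (Matrix I I K) :=
      { carrier := {x | Cm C x ∧ x * ε = x ∧ adj J ε * x = 0 ∧
          (1 - ε - adj J ε) * x ∈ PS J H C ε}
        add_mem' := by
          rintro x y ⟨h1, h2, h3, h4⟩ ⟨g1, g2, g3, g4⟩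
          refine ⟨cm_addB h1 g1, by rw [add_mul, h2, g2], by rw [mul_add, h3, g3, add_zero], ?_⟩
          rw [mul_add]
          exact (PS J H C ε).add_mem h4 g4
        zero_mem' := by
          refine ⟨fun c _ => by rw [zero_mul, mul_zero], zero_mul _, mul_zero _, ?_⟩
          rw [mul_zero]
          exact (PS J H C ε).zero_mem
        smul_mem' := by
          rintro t x ⟨h1, h2, h3, h4⟩
          refine ⟨cm_smulB t h1, by rw [smul_mul_assoc, h2], by
            rw [mul_smul_comm, h3, smul_zero], ?_⟩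
          rw [mul_smul_comm]
          exact (PS J H C ε).smul_mem t h4 }
    have key : a * ε ∈ M := by
      refine gen_left L h M (fun x hx => ⟨hx.1, hx.2.1⟩) ⟨h.cm, ee, fe, ?_⟩ ?_ ha
      · have : (1 - ε - adj J ε) * ε = 0 := by
          rw [sub_mul, sub_mul, one_mul, ee, fe, sub_self, sub_zero]
        rw [this]
        exact (PS J H C ε).zero_mem
      · rintro X hX x ⟨h1, h2, h3, h4⟩
        obtain ⟨s, hs⟩ := schur h h1
        have hs' : ε * x = s • ε := by rw [← h2, ← mul_assoc, hs]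
        have p1 := PS_of L h hX
        refine ⟨cm_mulB (L.cm X hX) h1, by rw [mul_assoc, h2], ?_, ?_⟩
        · have q1 := hc4 _ h4 _ p1
          have q2 := hc3 X hX
          rw [adj_mul L.det, adj_mul L.det, adj_subB, adj_subB, aa, L.skew X hX] at q1
          have hone : adj J (1 : Matrix I I K) = 1 := by
            simp only [adj, transpose_one, mul_one]
            exact Matrix.nonsing_inv_mul _ (isUnit_iff_ne_zero.2 L.det)
          rw [hone] at q1
          have q3 : adj J ε * X * ((1 - ε - adj J ε) * x) = 0 := by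
            have q4 : (1 - adj J ε - ε) * (1 - ε - adj J ε) = 1 - ε - adj J ε := by
              simp only [mul_sub, sub_mul, one_mul, mul_one, ee, ff, ef, fe]
              abel
            rw [neg_mul, mul_neg, neg_mul, neg_eq_zero] at q1
            rw [← q4]
            simpa only [mul_assoc] using q1
          rw [sub_mul, sub_mul, one_mul, h3, sub_zero, mul_sub, hs'] at q3
          rw [mul_smul_comm, q2, smul_zero, sub_zero, mul_assoc] at q3
          exact q3
        · have e1 := PS_step L h hX h4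
          have e3 := (PS J H C ε).smul_mem s p1
          have e4 := (PS J H C ε).add_mem e1 e3
          convert e4 using 1
          have e5 : (1 - ε - adj J ε) * X * ε * x = s • ((1 - ε - adj J ε) * X * ε) := by
            rw [mul_assoc, hs', mul_smul_comm]
          rw [← e5]
          simp only [mul_sub, sub_mul, mul_assoc, one_mul, h3, mul_zero]
          abel
    have h9 := key.2.2.2.2.2.2.2
    rw [mul_assoc]
    exact h9

end Pool.Agent.Lib.MP_640417_ag.Dt
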