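import Pool.Agent.Lib.MP_640417_ag.Dt.AlgB

/-!
# MP_640417_ag, Dt, module AlgC (200 lines): Lie algebras of skew matrices with a small semisimple element, second part

Notation of `Dt/AlgB.lean`. `full_P` for `ε` and for `ε'` (`EData.adj`; `adj_adj`): (P) `x = r x ε` implies `x - x* ∈ H`; (Q) `y = r y ε'`
implies `y - y* ∈ H` (for `x`, `y` commuting with `C`).
* (W) `w = ε' b ε` implies `w - w* ∈ H`. First case: `w0 = ε' X ε ≠ 0` for some `X ∈ H`. Then `w0 ∈ H` (`comp`), `w0* = - w0`, `w` is a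
  multiple of `w0` (`schur2`), so `w - w* = 2 w ∈ H`. Second case: `ε' X ε = 0` for all `X ∈ H`. For `x = r x ε`, `x1 = r x1 ε`:
  `[x - x*, x1 - x1*] = - x* x1 + x1* x ∈ H`, it is of the form `ε' . ε`, so by `comp` and the assumption it is zero (`ε' Z ε = Z` for
  `Z = - x* x1 + x1* x ∈ H`). So `(x* x1)* = x1* x = x* x1`. If `x* x1 ≠ 0` for some `x, x1`, then `w` is a multiple of it
  (`schur2`) and `w* = w`, so `w - w* = 0 ∈ H`. If all `x* x1 = 0` then `K ε + r A ε` is stable under `H`: `X ε = s ε + r X ε + 0`,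
  `X x = ε X r x + r X r x + ε' X r x` with `ε' X r = - (r X ε)*`; so `a ε` is in it for all `a` (`gen_left`), and `w = ε' b ε = ε' (b ε) = 0`.
* `concl`: `z = a ε b = (a ε) (ε b)`, `a ε = s ε + x + w`, `x = r a ε`, `w = ε' a ε` (`schur`), `ε b = t ε + y* + w'`, `y* = ε b r`
  (`y = (ε b r)* = r b* ε'`, `b*` commutes with `C`), `w' = ε b ε'`. The nine products:
  `ε ε = ε`: `δ ∈ H`. `ε y* = y*`: `y* - y ∈ H` (Q). `ε w' = w'`: (W) for `w'*`... (`w' = ε b ε'` is the `W` of `ε'`). `x ε = x`: (P).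
  `x y*`: `[y - y*, x - x*] = (x y* - y x*) + (x* y - y* x) ∈ H` and `y* x = s' ε` (`schur`), `x* y = (y* x)* = s' ε'`, so the second
  part is `- s' δ ∈ H`, and `x y* - (x y*)* = x y* - y x* ∈ H`. `x w' = r x w' ε'`: (Q). `w ε = w`: (W). `w y* = ε' w y* r`: its adjoint
  `y w*` is `r . ε`: (P) gives `y w* - (y w*)* ∈ H`. `w w' = ε' (..) ε' = s'' ε'` (`schur` for `ε'`): `s'' (ε' - ε) ∈ H`.
-/

set_option autoImplicit false

namespace Pool.Agent.Lib.MP_640417_ag.Dt

open Matrix Pool.Agent.Lib.MP_640417_ag.Gn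

variable {K : Type} [Field K] {I : Type} [Fintype I] [DecidableEq I]
  [CharZero K] {J : Matrix I I K} {H : Submodule K (Matrix I I K)}
  {C : Subalgebra K (Matrix I I K)} [IsAlgClosed K]

omit [CharZero K] [IsAlgClosed K] in
private theorem asc0 {a b : Matrix I I K} (h : a * b = 0) (z : Matrix I I K) :
    a * (b * z) = 0 := by rw [← mul_assoc, h, zero_mul]

omit [CharZero K] [IsAlgClosed K] in
private theorem cm_mulC {a b : Matrix I I K} (ha : Cm C a) (hb : Cm C b) : Cm C (a * b) := by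
  intro c hc
  rw [mul_assoc, hb c hc, ← mul_assoc, ha c hc, mul_assoc]

omit [CharZero K] [IsAlgClosed K] in
private theorem cm_subC {a b : Matrix I I K} (ha : Cm C a) (hb : Cm C b) : Cm C (a - b) := by
  intro c hc
  rw [sub_mul, mul_sub, ha c hc, hb c hc]

omit [CharZero K] [IsAlgClosed K] in
private theorem cm_r (L : LData J H C) {ε : Matrix I I K} (h : EData J H C ε) :
    Cm C (1 - ε - adj J ε) := by
  have c0 : Cm C (1 : Matrix I I K) := fun c _ => by rw [one_mul, mul_one]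
  refine cm_subC (cm_subC c0 h.cm) ?_
  intro c hc
  have h1 := congrArg (adj J) (h.cm (adj J c) (L.adjC c hc))
  rw [adj_mul L.det, adj_mul L.det, adj_adj L.det L.alt] at h1
  exact h1.symm

omit [CharZero K] [IsAlgClosed K] in
private theorem cm_adjC (L : LData J H C) {a : Matrix I I K} (ha : Cm C a) :
    Cm C (adj J a) := by
  intro c hc
  have h1 := congrArg (adj J) (ha (adj J c) (L.adjC c hc))
  rw [adj_mul L.det, adj_mul L.det, adj_adj L.det L.alt] at h1
  exact h1.symm

omit [CharZero K] [IsAlgClosed K] in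
private theorem adj_subC (J a b : Matrix I I K) : adj J (a - b) = adj J a - adj J b := by
  simp only [adj, transpose_sub, mul_sub, sub_mul]

omit [CharZero K] [IsAlgClosed K] in
private theorem adj_addC (J a b : Matrix I I K) : adj J (a + b) = adj J a + adj J b := by
  simp only [adj, transpose_add, mul_add, add_mul]

omit [CharZero K] [IsAlgClosed K] in
private theorem adj_smulC (J : Matrix I I K) (t : K) (a : Matrix I I K) :
    adj J (t • a) = t • adj J a := by
  simp only [adj, transpose_smul, mul_smul_comm, smul_mul_assoc]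

omit [CharZero K] [IsAlgClosed K] in
private theorem adj_zeroC (J : Matrix I I K) : adj J 0 = 0 := by
  simp only [adj, transpose_zero, mul_zero, zero_mul]

omit [CharZero K] [IsAlgClosed K] in
private theorem adj_oneC {J : Matrix I I K} (hJ : J.det ≠ 0) : adj J (1 : Matrix I I K) = 1 := by
  simp only [adj, transpose_one, mul_one]
  exact Matrix.nonsing_inv_mul _ (isUnit_iff_ne_zero.2 hJ)

omit [CharZero K] [IsAlgClosed K] in
private theorem adj_rC (L : LData J H C) (ε : Matrix I I K) :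
    adj J (1 - ε - adj J ε) = 1 - ε - adj J ε := by
  rw [adj_subC, adj_subC, adj_oneC L.det, adj_adj L.det L.alt]
  abel

/-- The matrices `x = r a ε`. -/
private theorem rfacts (L : LData J H C) {ε : Matrix I I K} (h : EData J H C ε)
    {a : Matrix I I K} (ha : Cm C a) (x : Matrix I I K) (hx : x = (1 - ε - adj J ε) * a * ε) :
    Cm C x ∧ ε * x = 0 ∧ adj J ε * x = 0 ∧ x * ε = x ∧ x - adj J x ∈ H ∧
      adj J ε * adj J x = adj J x ∧ adj J x * adj J ε = 0 ∧ adj J x * ε = 0 := by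
  have ee := h.idem
  have ef := h.dual
  have fe := h.dual'
  have ff : adj J ε * adj J ε = adj J ε := by rw [← adj_mul L.det, h.idem]
  have aa := adj_adj L.det L.alt ε
  have e1 : ε * x = 0 := by
    rw [hx, ← mul_assoc, ← mul_assoc, mul_sub, mul_sub, mul_one, ee, ef]
    simp
  have e2 : adj J ε * x = 0 := by
    rw [hx, ← mul_assoc, ← mul_assoc, mul_sub, mul_sub, mul_one, ff, fe]
    simp
  have e3 : x * ε = x := by rw [hx, mul_assoc, ee]
  refine ⟨?_, e1, e2, e3, ?_, ?_, ?_, ?_⟩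
  · rw [hx]
    exact cm_mulC (cm_mulC (cm_r L h) ha) h.cm
  · rw [hx]
    exact full_P L h ha
  · rw [← adj_mul L.det, e3]
  · rw [← adj_mul L.det, e1, adj_zeroC]
  · conv_lhs => rw [← aa]
    rw [← adj_mul L.det, e2, adj_zeroC]

theorem full_W (L : LData J H C) {ε : Matrix I I K} (h : EData J H C ε) {b : Matrix I I K}
    (hb : Cm C b) : adj J ε * b * ε - adj J (adj J ε * b * ε) ∈ H := by
  have ee := h.idem
  have ef := h.dual
  have fe := h.dual'
  have ff : adj J ε * adj J ε = adj J ε := by rw [← adj_mul L.det, h.idem]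
  have aa := adj_adj L.det L.alt ε
  by_cases hc1 : ∃ X ∈ H, adj J ε * X * ε ≠ 0
  · obtain ⟨X, hX, hX0⟩ := hc1
    obtain ⟨s, hs⟩ := schur2 L h (L.cm X hX) hb hX0
    have k1 := (comp L h hX).1
    have w1 : adj J (adj J ε * X * ε) = -(adj J ε * X * ε) := by
      rw [adj_mul L.det, adj_mul L.det, aa, L.skew X hX, neg_mul, mul_neg, mul_assoc]
    rw [hs, adj_smulC, w1, smul_neg, sub_neg_eq_add]
    exact H.add_mem (H.smul_mem s k1) (H.smul_mem s k1)
  push Not at hc1
  have symm : ∀ x x1 a a1 : Matrix I I K, Cm C a → Cm C a1 →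
      x = (1 - ε - adj J ε) * a * ε → x1 = (1 - ε - adj J ε) * a1 * ε →
      adj J x * x1 = adj J x1 * x := by
    intro x x1 a a1 ha ha1 hx hx1
    obtain ⟨p1, p2, p3, p4, p5, p6, p7, p8⟩ := rfacts L h ha x hx
    obtain ⟨q1, q2, q3, q4, q5, q6, q7, q8⟩ := rfacts L h ha1 x1 hx1
    have k1 := hc1 _ (L.lie _ p5 _ q5)
    have z1 : x * x1 = 0 := by rw [← p4, mul_assoc, q2, mul_zero]
    have z2 : x1 * x = 0 := by rw [← q4, mul_assoc, p2, mul_zero]
    have z3 : x * adj J x1 = 0 := by rw [← p4, ← q6, mul_assoc, ← mul_assoc ε, ef, zero_mul,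
      mul_zero]
    have z4 : x1 * adj J x = 0 := by rw [← q4, ← p6, mul_assoc, ← mul_assoc ε, ef, zero_mul,
      mul_zero]
    have z5 : adj J x * adj J x1 = 0 := by rw [← adj_mul L.det, z2, adj_zeroC]
    have z6 : adj J x1 * adj J x = 0 := by rw [← adj_mul L.det, z1, adj_zeroC]
    have k2 : (x - adj J x) * (x1 - adj J x1) - (x1 - adj J x1) * (x - adj J x) =
        adj J x1 * x - adj J x * x1 := by
      simp only [mul_sub, sub_mul, z1, z2, z3, z4, z5, z6]
      abel
    rw [k2, mul_sub, sub_mul, ← mul_assoc, q6, ← mul_assoc, p6, mul_assoc, p4, mul_assoc, q4,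
      sub_eq_zero] at k1
    exact k1.symm
  by_cases hc2 : ∃ a a1 : Matrix I I K, Cm C a ∧ Cm C a1 ∧
      adj J ((1 - ε - adj J ε) * a * ε) * ((1 - ε - adj J ε) * a1 * ε) ≠ 0
  · obtain ⟨a, a1, ha, ha1, h0⟩ := hc2
    obtain ⟨x, hx⟩ : ∃ x, x = (1 - ε - adj J ε) * a * ε := ⟨_, rfl⟩
    obtain ⟨x1, hx1⟩ : ∃ x, x = (1 - ε - adj J ε) * a1 * ε := ⟨_, rfl⟩
    rw [← hx, ← hx1] at h0
    have hsy := symm x x1 a a1 ha ha1 hx hx1
    obtain ⟨p1, p2, p3, p4, p5, p6, p7, p8⟩ := rfacts L h ha x hx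
    obtain ⟨q1, q2, q3, q4, q5, q6, q7, q8⟩ := rfacts L h ha1 x1 hx1
    have hw : adj J ε * (adj J x * x1) * ε = adj J x * x1 := by
      rw [mul_assoc, mul_assoc, q4, ← mul_assoc, p6]
    obtain ⟨s, hs⟩ := schur2 L h (cm_mulC (cm_adjC L p1) q1) hb (by rw [hw]; exact h0)
    rw [hw] at hs
    have e1 : adj J (adj J x * x1) = adj J x * x1 := by
      rw [adj_mul L.det, adj_adj L.det L.alt, ← hsy]
    rw [hs, adj_smulC, e1, sub_self]
    exact H.zero_mem
  push Not at hc2
  let M : Submodule K (Matrix I I K) :=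
    { carrier := {x | Cm C x ∧ x * ε = x ∧ adj J ε * x = 0}
      add_mem' := by
        rintro x y ⟨h1, h2, h3⟩ ⟨g1, g2, g3⟩
        refine ⟨fun c hc => by rw [add_mul, mul_add, h1 c hc, g1 c hc],
          by rw [add_mul, h2, g2], by rw [mul_add, h3, g3, add_zero]⟩
      zero_mem' := ⟨fun c _ => by rw [zero_mul, mul_zero], zero_mul _, mul_zero _⟩
      smul_mem' := by
        rintro t x ⟨h1, h2, h3⟩
        exact ⟨fun c hc => by rw [smul_mul_assoc, mul_smul_comm, h1 c hc],
          by rw [smul_mul_assoc, h2], by rw [mul_smul_comm, h3, smul_zero]⟩ }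
  have key : b * ε ∈ M := by
    refine gen_left L h M (fun x hx => ⟨hx.1, hx.2.1⟩) ⟨h.cm, ee, fe⟩ ?_ hb
    rintro X hX x ⟨h1, h2, h3⟩
    refine ⟨cm_mulC (L.cm X hX) h1, by rw [mul_assoc, h2], ?_⟩
    have q1 := hc2 X x (L.cm X hX) h1
    have q2 := hc1 X hX
    rw [mul_assoc _ x ε, h2, adj_mul L.det, adj_mul L.det, adj_rC L, L.skew X hX] at q1
    have q4 : (1 - ε - adj J ε) * (1 - ε - adj J ε) = 1 - ε - adj J ε := by
      simp only [mul_sub, sub_mul, one_mul, mul_one, ee, ff, ef, fe]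
      abel
    have q3 : adj J ε * X * ((1 - ε - adj J ε) * x) = 0 := by
      rw [neg_mul, mul_neg, neg_mul, neg_eq_zero] at q1
      rw [← q4]
      simpa only [mul_assoc] using q1
    rw [sub_mul, sub_mul, one_mul, h3, sub_zero, mul_sub, ← mul_assoc _ ε x, q2, zero_mul,
      sub_zero, mul_assoc] at q3
    exact q3
  have h9 := key.2.2
  rw [← mul_assoc] at h9
  rw [h9, adj_zeroC, sub_zero]
  exact H.zero_mem

theorem concl (L : LData J H C) {ε : Matrix I I K} (h : EData J H C ε) {a b : Matrix I I K}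
    (ha : Cm C a) (hb : Cm C b) : a * ε * b - adj J (a * ε * b) ∈ H := by
  have ee := h.idem
  have ef := h.dual
  have fe := h.dual'
  have ff : adj J ε * adj J ε = adj J ε := by rw [← adj_mul L.det, h.idem]
  have aa := adj_adj L.det L.alt ε
  have h' := h.adj L
  have hz : Cm C (a * ε * b) := cm_mulC (cm_mulC ha h.cm) hb
  have hz' : Cm C (adj J (a * ε * b)) := cm_adjC L hz
  have hr := adj_rC L ε
  -- the component `r z r`
  have k9 : (1 - ε - adj J ε) * (a * ε * b) * (1 - ε - adj J ε) -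
      adj J ((1 - ε - adj J ε) * (a * ε * b) * (1 - ε - adj J ε)) ∈ H := by
    obtain ⟨x, hx⟩ : ∃ x, x = (1 - ε - adj J ε) * a * ε := ⟨_, rfl⟩
    obtain ⟨y, hy⟩ : ∃ y, y = (1 - adj J ε - adj J (adj J ε)) * adj J b * adj J ε := ⟨_, rfl⟩
    obtain ⟨p1, p2, p3, p4, p5, p6, p7, p8⟩ := rfacts L h ha x hx
    obtain ⟨q1, q2, q3, q4, q5, q6, q7, q8⟩ := rfacts L h' (cm_adjC L hb) y hy
    rw [aa] at q3 q6 q7
    have hy' : adj J y = ε * b * (1 - ε - adj J ε) := by
      rw [hy, adj_mul L.det, adj_mul L.det, adj_rC L, aa, adj_adj L.det L.alt b, ← mul_assoc]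
      congr 1
      abel
    have z1 : y * x = 0 := by rw [← q4, mul_assoc, p3, mul_zero]
    have z2 : x * y = 0 := by rw [← p4, mul_assoc, q3, mul_zero]
    have z3 : adj J y * adj J x = 0 := by rw [← adj_mul L.det, z2, adj_zeroC]
    have z4 : adj J x * adj J y = 0 := by rw [← adj_mul L.det, z1, adj_zeroC]
    obtain ⟨s, hs⟩ := schur h (cm_mulC (cm_adjC L q1) p1)
    have hs1 : adj J y * x = s • ε := by
      rw [← hs, mul_assoc, mul_assoc, p4, ← mul_assoc, q6]
    have hs2 : adj J x * y = s • adj J ε := by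
      rw [← adj_smulC, ← hs1, adj_mul L.det, adj_adj L.det L.alt]
    have hprod : (1 - ε - adj J ε) * (a * ε * b) * (1 - ε - adj J ε) = x * adj J y := by
      rw [hx, hy']
      simp only [mul_assoc]
      rw [← mul_assoc ε ε, ee]
    rw [hprod, adj_mul L.det, adj_adj L.det L.alt]
    have h6 := H.add_mem (L.lie _ q5 _ p5) (H.smul_mem s h.mem)
    convert h6 using 1
    simp only [mul_sub, sub_mul, z1, z2, z3, z4, hs1, hs2, smul_sub]
    abel
  obtain ⟨z, hzz⟩ : ∃ z, z = a * ε * b := ⟨_, rfl⟩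
  rw [← hzz] at hz hz' k9 ⊢
  obtain ⟨s, hs⟩ := schur h hz
  obtain ⟨t, ht⟩ := schur h' hz
  have k1 : ε * z * ε - adj J (ε * z * ε) ∈ H := by
    rw [hs, adj_smulC, ← smul_sub]
    exact H.smul_mem s h.mem
  have k2 : adj J ε * z * adj J ε - adj J (adj J ε * z * adj J ε) ∈ H := by
    rw [ht, adj_smulC, ← smul_sub]
    exact H.smul_mem t h'.mem
  have k3 := full_W L h hz
  have k4 := full_W L h' hz
  rw [aa] at k4
  have k5 := full_P L h hz
  have k6 := full_P L h' hz
  have k7 := H.neg_mem (full_P L h hz')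
  have k8 := H.neg_mem (full_P L h' hz')
  rw [aa] at k6 k8
  have hr' : 1 - adj J ε - ε = 1 - ε - adj J ε := by abel
  rw [hr'] at k6 k8
  have k7' : adj J ε * z * (1 - ε - adj J ε) - adj J (adj J ε * z * (1 - ε - adj J ε)) ∈ H := by
    convert k7 using 1
    simp only [adj_mul L.det, hr, aa, adj_adj L.det L.alt z]
    simp only [mul_assoc]
    abel
  have k8' : ε * z * (1 - ε - adj J ε) - adj J (ε * z * (1 - ε - adj J ε)) ∈ H := by
    convert k8 using 1
    simp only [adj_mul L.det, hr, aa, adj_adj L.det L.alt z]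
    simp only [mul_assoc]
    abel
  have hsum := H.add_mem (H.add_mem (H.add_mem (H.add_mem (H.add_mem (H.add_mem (H.add_mem
    (H.add_mem k1 k2) k3) k4) k5) k6) k7') k8') k9
  convert hsum using 1
  simp only [adj_mul L.det, hr, aa]
  simp only [mul_sub, sub_mul, mul_assoc, one_mul, mul_one]
  abel

end Pool.Agent.Lib.MP_640417_ag.Dt
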