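import Pool.Agent.Lib.MP_640417_ag.Ctl.Plus
import Pool.Agent.Lib.MP_640417_ag.Ty.RegK
import Pool.Agent.Lib.MP_640417_ag.Glob.GenD

/-!
# MP_640417_ag, Dt, module Base (250 lines): the Lie algebra over an extension field

`HpK` = the `K`-span of the matrices of `Hp = Hh ⊔ Zm`.
* `hpk_nondeg`: let `B_k` be an `F`-basis of `Hp`; the Gram matrix `tr (B_j B_k)` is invertible over `F` (`Hp_nondeg`), so over `K`.
* `hpk_lie`, `hpk_skew`, `hpk_ad`: bilinearity, `Hp_lie`, `Hp_ad` (`Submodule.span_induction`). Elements of `Hp` are skew.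
* `hpk_comm`: elements of `Hh` commute with the commutant by `Hh_comm_C`, elements of `Zm` by definition; `inCK_span`.
* `hpk_cent`: `c` commutes with all `X.map`, `X ∈ Hh`. These are linear equations over `F` (`span_of_eq` in `Glob/GenD.lean`): `c` is a
  `K`-combination of matrices over `F` which commute with `Hh`, these are in the commutant (`comm_open`).
* `hpk_zm`: `X` commutes with all `M γ` (`inCK_full`), with all `b.map`, `b` in the commutant, and is skew: linear equations over `F`.
  So `X` is a `K`-combination of solutions over `F`, which are in `Zm`.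
* `hpk_mem`: let `X` over `F` with `X.map` in `HpK`: compose with an `F`-linear map `K → F` which maps `1` to `1` (entrywise): it maps
  `HpK` to `Hp`.
-/

set_option autoImplicit false

namespace Pool.Agent.Lib.MP_640417_ag.Dt

open Matrix Pool.Agent.Lib.MP_640417_ag.Glob Pool.Agent.Lib.MP_640417_ag.Ctl
  Pool.Agent.Lib.MP_640417_ag.Ty

variable {F : Type} [NontriviallyNormedField F] {I : Type} [Fintype I] [DecidableEq I]
  {Γ : Type} [Group Γ] [TopologicalSpace Γ]

/-- the Lie algebra over `K` -/
noncomputable def HpK (ρ : MRep Γ F I) (l : ℕ) (K : Type) [Field K] [Algebra F K] :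
    Submodule K (Matrix I I K) :=
  Submodule.span K ((fun X : Matrix I I F => X.map (algebraMap F K)) '' (Hp ρ l : Set (Matrix I I F)))

section functionals

variable {K : Type} [Field K] [Algebra F K]

omit [TopologicalSpace Γ] [Group Γ] in
private theorem fmul_left (f : K →ₗ[F] F) (A : Matrix I I F) (X : Matrix I I K) :
    (A.map (algebraMap F K) * X).map f = A * X.map f := by
  ext i j
  rw [Matrix.map_apply, Matrix.mul_apply, Matrix.mul_apply, map_sum]
  refine Finset.sum_congr rfl fun k _ => ?_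
  rw [Matrix.map_apply, Matrix.map_apply, ← Algebra.smul_def, map_smul, smul_eq_mul]

private theorem fmul_right (f : K →ₗ[F] F) (A : Matrix I I F) (X : Matrix I I K) :
    (X * A.map (algebraMap F K)).map f = X.map f * A := by
  ext i j
  rw [Matrix.map_apply, Matrix.mul_apply, Matrix.mul_apply, map_sum]
  refine Finset.sum_congr rfl fun k _ => ?_
  rw [Matrix.map_apply, Matrix.map_apply, mul_comm (X i k), ← Algebra.smul_def, map_smul,
    smul_eq_mul, mul_comm]

private theorem fadd (f : K →ₗ[F] F) (X Y : Matrix I I K) :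
    (X + Y).map f = X.map f + Y.map f := by
  ext i j
  simp

private theorem fzero (f : K →ₗ[F] F) : (0 : Matrix I I K).map f = 0 := by
  ext i j
  simp

private theorem ftr (f : K →ₗ[F] F) (X : Matrix I I K) : (X.map f).trace = f X.trace := by
  unfold Matrix.trace
  rw [map_sum]
  rfl

private theorem ftranspose (f : K →ₗ[F] F) (X : Matrix I I K) : (Xᵀ).map f = (X.map f)ᵀ := rfl

private theorem feq {X Y : Matrix I I K} (h : ∀ f : K →ₗ[F] F, X.map f = Y.map f) : X = Y := by
  classical
  let κ := Module.Basis.ofVectorSpace F K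
  ext i j
  apply κ.repr.injective
  ext k
  have h1 := congrFun (congrFun (h (κ.coord k)) i) j
  exact h1

private theorem fmem {ρ : MRep Γ F I} {l : ℕ} {X : Matrix I I K} (hX : X ∈ HpK ρ l K) :
    ∀ f : K →ₗ[F] F, X.map f ∈ Hp ρ l := by
  unfold HpK at hX
  induction hX using Submodule.span_induction with
  | mem x hx =>
    obtain ⟨Y, hY, rfl⟩ := hx
    intro f
    have h1 : (Y.map (algebraMap F K)).map f = f 1 • Y := by
      ext i j
      rw [Matrix.map_apply, Matrix.map_apply, Matrix.smul_apply, Algebra.algebraMap_eq_smul_one,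
        map_smul, smul_eq_mul, smul_eq_mul, mul_comm]
    show (Y.map (algebraMap F K)).map f ∈ Hp ρ l
    rw [h1]
    exact Submodule.smul_mem _ _ hY
  | zero =>
    intro f
    rw [fzero]
    exact Submodule.zero_mem _
  | add x y _ _ hx hy =>
    intro f
    rw [fadd]
    exact Submodule.add_mem _ (hx f) (hy f)
  | smul r x _ hx =>
    intro f
    have h1 : (r • x).map f = x.map (f.comp (LinearMap.mulLeft F r)) := by
      ext i j
      rw [Matrix.map_apply, Matrix.map_apply, Matrix.smul_apply, smul_eq_mul]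
      rfl
    rw [h1]
    exact hx _

private theorem fof {ρ : MRep Γ F I} {l : ℕ} {X : Matrix I I K}
    (h : ∀ f : K →ₗ[F] F, X.map f ∈ Hp ρ l) : X ∈ HpK ρ l K := by
  classical
  let κ := Module.Basis.ofVectorSpace F K
  let s : Finset (Module.Basis.ofVectorSpaceIndex F K) :=
    Finset.univ.biUnion fun p : I × I => (κ.repr (X p.1 p.2)).support
  have hX : X = ∑ k ∈ s, κ k • (X.map (κ.coord k)).map (algebraMap F K) := by
    ext i j
    rw [Matrix.sum_apply]
    have h1 : X i j = ∑ k ∈ s, κ.repr (X i j) k • κ k := by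
      conv_lhs => rw [← κ.linearCombination_repr (X i j), Finsupp.linearCombination_apply]
      apply Finsupp.sum_of_support_subset
      · intro k hk
        exact Finset.mem_biUnion.2 ⟨(i, j), Finset.mem_univ _, hk⟩
      · intro k _
        rw [zero_smul]
    refine h1.trans (Finset.sum_congr rfl fun k _ => ?_)
    rw [Matrix.smul_apply, Matrix.map_apply, Matrix.map_apply, smul_eq_mul, Algebra.smul_def,
      mul_comm]
    rfl
  rw [hX]
  refine Submodule.sum_mem _ fun k _ => Submodule.smul_mem _ _ (Submodule.subset_span ?_)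
  exact ⟨_, h (κ.coord k), rfl⟩

end functionals

variable [IsUltrametricDist F] [CompleteSpace F] [CharZero F] [IsTopologicalGroup Γ]
  [CompactSpace Γ] (ρ : MRep Γ F I) (l : ℕ) (hl : ‖(l : F)‖ < 1) (hl0 : (l : F) ≠ 0)
  (K : Type) [Field K] [Algebra F K]

omit [IsUltrametricDist F] [CompleteSpace F] [CharZero F] [IsTopologicalGroup Γ]
  [CompactSpace Γ] in
private theorem hp_skew {Y : Matrix I I F} (hY : Y ∈ Hp ρ l) : Yᵀ * ρ.J + ρ.J * Y = 0 := by
  have h1 : Hp ρ l ≤ spJ ρ.J := by
    refine sup_le ?_ ?_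
    · intro X hX
      exact hX.1
    · intro X hX
      exact hX.2.2
  exact h1 hY

include hl hl0

theorem hpk_nondeg (hsemi : ρ.Semi) (X : Matrix I I K) (hX : X ∈ HpK ρ l K)
    (h0 : ∀ Y ∈ HpK ρ l K, (X * Y).trace = 0) : X = 0 := by
  refine feq (F := F) fun f => ?_
  rw [fzero]
  refine Hp_nondeg ρ l hl hl0 hsemi _ (fmem hX f) fun Y hY => ?_
  rw [← fmul_right, ftr, h0 _ (Submodule.subset_span ⟨Y, hY, rfl⟩), map_zero]

theorem hpk_lie {X Y : Matrix I I K} (hX : X ∈ HpK ρ l K) (hY : Y ∈ HpK ρ l K) :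
    X * Y - Y * X ∈ HpK ρ l K := by
  have h1 : ∀ Z ∈ Hp ρ l, ∀ Y ∈ HpK ρ l K, Z.map (algebraMap F K) * Y -
      Y * Z.map (algebraMap F K) ∈ HpK ρ l K := by
    intro Z hZ Y hY
    unfold HpK at hY
    induction hY using Submodule.span_induction with
    | mem x hx =>
      obtain ⟨W, hW, rfl⟩ := hx
      refine Submodule.subset_span ⟨Z * W - W * Z, Hp_lie ρ l hl hl0 hZ hW, ?_⟩
      show (Z * W - W * Z).map (algebraMap F K) = _
      rw [Matrix.map_sub _ (fun a b => map_sub _ a b), Matrix.map_mul, Matrix.map_mul]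
    | zero =>
      rw [mul_zero, zero_mul, sub_zero]
      exact Submodule.zero_mem _
    | add x y _ _ hx hy =>
      have : Z.map (algebraMap F K) * (x + y) - (x + y) * Z.map (algebraMap F K) =
          (Z.map (algebraMap F K) * x - x * Z.map (algebraMap F K)) +
          (Z.map (algebraMap F K) * y - y * Z.map (algebraMap F K)) := by
        rw [mul_add, add_mul]
        abel
      rw [this]
      exact Submodule.add_mem _ hx hy
    | smul r x _ hx =>
      rw [mul_smul_comm, smul_mul_assoc, ← smul_sub]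
      exact Submodule.smul_mem _ r hx
  unfold HpK at hX
  induction hX using Submodule.span_induction with
  | mem x hx =>
    obtain ⟨Z, hZ, rfl⟩ := hx
    exact h1 Z hZ Y hY
  | zero =>
    rw [mul_zero, zero_mul, sub_zero]
    exact Submodule.zero_mem _
  | add x y _ _ hx hy =>
    have : (x + y) * Y - Y * (x + y) = (x * Y - Y * x) + (y * Y - Y * y) := by
      rw [mul_add, add_mul]
      abel
    rw [this]
    exact Submodule.add_mem _ hx hy
  | smul r x _ hx =>
    rw [mul_smul_comm, smul_mul_assoc, ← smul_sub]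
    exact Submodule.smul_mem _ r hx

theorem hpk_skew {X : Matrix I I K} (hX : X ∈ HpK ρ l K) :
    Xᵀ * ρ.J.map (algebraMap F K) + ρ.J.map (algebraMap F K) * X = 0 := by
  refine feq (F := F) fun f => ?_
  rw [fadd, fmul_right, fmul_left, ftranspose, fzero]
  exact hp_skew ρ l (fmem hX f)

theorem hpk_ad (γ : Γ) {X : Matrix I I K} (hX : X ∈ HpK ρ l K) :
    (ρ.M γ).map (algebraMap F K) * X * (ρ.M γ⁻¹).map (algebraMap F K) ∈ HpK ρ l K := by
  refine fof fun f => ?_
  rw [fmul_right, fmul_left]
  exact Hp_ad ρ l γ (fmem hX f)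

theorem hpk_comm {X c : Matrix I I K} (hX : X ∈ HpK ρ l K) (hc : InCK ρ K c) :
    X * c = c * X := by
  have h1 : ∀ Z ∈ Hp ρ l, ∀ b, ρ.InC b → Z * b = b * Z := by
    intro Z hZ b hb
    obtain ⟨a, ha, z, hz, rfl⟩ := Submodule.mem_sup.1 hZ
    rw [add_mul, mul_add, Hh_comm_C ρ l hl hl0 ha hb, hz.2.1 b hb]
  have h2 : ∀ b, ρ.InC b → X * b.map (algebraMap F K) = b.map (algebraMap F K) * X := by
    intro b hb
    refine feq (F := F) fun f => ?_
    rw [fmul_right, fmul_left]
    exact h1 _ (fmem hX f) b hb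
  have h3 := inCK_span ρ K hc
  clear hc
  induction h3 using Submodule.span_induction with
  | mem x hx =>
    obtain ⟨b, hb, rfl⟩ := hx
    exact h2 b hb
  | zero => rw [mul_zero, zero_mul]
  | add x y _ _ hx hy => rw [mul_add, add_mul, hx, hy]
  | smul r x _ hx => rw [mul_smul_comm, smul_mul_assoc, hx]

theorem hpk_cent {c : Matrix I I K} (h : ∀ X ∈ HpK ρ l K, X * c = c * X) : InCK ρ K c := by
  obtain ⟨U, hU⟩ := comm_open ρ l hl hl0
  refine ⟨U, fun γ hγ => ?_⟩
  refine feq (F := F) fun f => ?_
  rw [fmul_right, fmul_left]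
  refine hU _ (fun X hX => ?_) γ hγ
  have h1 := h _ (Submodule.subset_span ⟨X, Submodule.mem_sup_left hX, rfl⟩)
  have h2 := congrArg (fun A : Matrix I I K => A.map f) h1
  simp only at h2
  rw [fmul_right, fmul_left] at h2
  exact h2

theorem hpk_zm (hfull : Full0 ρ) {X : Matrix I I K} (hX : InCK ρ K X)
    (hc : ∀ c, InCK ρ K c → X * c = c * X)
    (hs : Xᵀ * ρ.J.map (algebraMap F K) + ρ.J.map (algebraMap F K) * X = 0) :
    X ∈ HpK ρ l K := by
  obtain ⟨U, hU⟩ := hX
  refine fof fun f => Submodule.mem_sup_right ⟨⟨U, fun γ hγ => ?_⟩, fun c hcc => ?_, ?_⟩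
  · rw [← fmul_left, hU γ hγ, fmul_right]
  · rw [← fmul_right, hc _ (inCK_map ρ K hcc), fmul_left]
  · rw [mem_spJ, ← ftranspose, ← fmul_right, ← fmul_left, ← fadd, hs, fzero]

theorem hpk_mem {X : Matrix I I F} (hX : X.map (algebraMap F K) ∈ HpK ρ l K) : X ∈ Hp ρ l := by
  obtain ⟨g, hg⟩ := LinearMap.exists_leftInverse_of_injective (Algebra.linearMap F K)
    (LinearMap.ker_eq_bot.mpr (algebraMap F K).injective)
  have h1 := fmem hX g
  have h2 : (X.map (algebraMap F K)).map g = X := by
    ext i j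
    rw [Matrix.map_apply, Matrix.map_apply]
    exact LinearMap.congr_fun hg (X i j)
  rw [h2] at h1
  exact h1

end Pool.Agent.Lib.MP_640417_ag.Dt
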