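import Mathlib

/-!
# MP_640417_ag, Dt, module BiC: the double centralizer of one matrix

If `Y` commutes with everything which commutes with `X` then `Y` is a polynomial in `X`. Proof:
`V = I → F` is a module over `S = F[T] / J` through `X`, `J` the annihilator, and there is a vector
`v1` with annihilator `0` in `S` (`Module.exists_ker_toSpanSingleton_eq_annihilator`). The ring `S`
satisfies the criterion of Baer, so there is an `S`-linear map `φ : V → S` with `φ v1 = 1`. The map
`w ↦ φ w • v` is `S`-linear and maps `v1` to `v`, so `Y v = φ (Y v1) • v`.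
-/

set_option autoImplicit false

namespace Pool.Agent.Lib.MP_640417_ag.Dt

open Matrix

open Polynomial in
private theorem bic_baer {F : Type} [Field F] (J : Ideal F[X]) (hJ : J ≠ ⊥) :
    Module.Baer (F[X] ⧸ J) (F[X] ⧸ J) := by
  classical
  intro I g
  obtain ⟨D, hD⟩ : ∃ D, J = Ideal.span {D} :=
    ⟨_, (Submodule.IsPrincipal.span_singleton_generator J).symm⟩
  have hD0 : D ≠ 0 := by
    rintro rfl
    exact hJ (by rw [hD, Ideal.span_singleton_eq_bot])
  have hpir : IsPrincipalIdealRing (F[X] ⧸ J) :=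
    IsPrincipalIdealRing.of_surjective (Ideal.Quotient.mk J) Ideal.Quotient.mk_surjective
  obtain ⟨g0, hg0⟩ : ∃ g0, I = Ideal.span {g0} :=
    ⟨_, (Submodule.IsPrincipal.span_singleton_generator I).symm⟩
  obtain ⟨r0, rfl⟩ := Ideal.Quotient.mk_surjective g0
  have hmem : Ideal.Quotient.mk J r0 ∈ I := by
    rw [hg0]
    exact Ideal.mem_span_singleton_self _
  obtain ⟨σ, hσ⟩ := Ideal.Quotient.mk_surjective (g ⟨_, hmem⟩)
  obtain ⟨r', hr'⟩ := EuclideanDomain.gcd_dvd_left r0 D
  obtain ⟨D', hD'⟩ := EuclideanDomain.gcd_dvd_right r0 D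
  have hab := EuclideanDomain.gcd_eq_gcd_ab r0 D
  set e := EuclideanDomain.gcd r0 D with he
  set a := EuclideanDomain.gcdA r0 D
  set b := EuclideanDomain.gcdB r0 D
  have hD'0 : D' ≠ 0 := by
    rintro rfl
    exact hD0 (by rw [hD', mul_zero])
  have h1 : Ideal.Quotient.mk J D' * Ideal.Quotient.mk J r0 = 0 := by
    rw [← map_mul, Ideal.Quotient.eq_zero_iff_mem, hD, Ideal.mem_span_singleton]
    refine ⟨r', ?_⟩
    calc D' * r0 = D' * (e * r') := by rw [← hr']
      _ = e * D' * r' := by ring
      _ = D * r' := by rw [← hD']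
  have h2 : Ideal.Quotient.mk J D' * Ideal.Quotient.mk J σ = 0 := by
    rw [hσ, ← smul_eq_mul, ← map_smul]
    have h3 : (Ideal.Quotient.mk J D') • (⟨Ideal.Quotient.mk J r0, hmem⟩ : I) = 0 :=
      Subtype.ext h1
    rw [h3, map_zero]
  have h3 : e ∣ σ := by
    rw [← map_mul, Ideal.Quotient.eq_zero_iff_mem, hD, Ideal.mem_span_singleton] at h2
    obtain ⟨c, hc⟩ := h2
    refine ⟨c, mul_left_cancel₀ hD'0 ?_⟩
    calc D' * σ = D * c := hc
      _ = e * D' * c := by rw [← hD']
      _ = D' * (e * c) := by ring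
  obtain ⟨σ', hσ'⟩ := h3
  have h4 : Ideal.Quotient.mk J e = Ideal.Quotient.mk J r0 * Ideal.Quotient.mk J a := by
    have h5 : Ideal.Quotient.mk J D = 0 := by
      rw [Ideal.Quotient.eq_zero_iff_mem, hD]
      exact Ideal.mem_span_singleton_self _
    rw [hab, map_add, map_mul, map_mul, h5, zero_mul, add_zero]
  refine ⟨LinearMap.toSpanSingleton (F[X] ⧸ J) (F[X] ⧸ J) (Ideal.Quotient.mk J (a * σ')), ?_⟩
  intro x hx
  obtain ⟨c, rfl⟩ := Ideal.mem_span_singleton'.1 (hg0 ▸ hx)
  have h5 : (⟨c * Ideal.Quotient.mk J r0, hx⟩ : I) = c • ⟨Ideal.Quotient.mk J r0, hmem⟩ := rfl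
  rw [h5, map_smul, ← hσ, LinearMap.toSpanSingleton_apply, smul_eq_mul, smul_eq_mul, hσ',
    map_mul, map_mul, h4]
  ring

private theorem bic_main {S V : Type} [CommRing S] [AddCommGroup V] [Module S V]
    (hS : Module.Baer S S) (v1 : V) (hv1 : ∀ s : S, s • v1 = 0 → s = 0)
    (Y : V → V) (hY : ∀ (b : V →ₗ[S] V) (v : V), Y (b v) = b (Y v)) :
    ∃ s : S, ∀ v, Y v = s • v := by
  have hinj : Function.Injective (LinearMap.toSpanSingleton S V v1) := by
    rw [← LinearMap.ker_eq_bot, LinearMap.ker_eq_bot']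
    intro s hs
    exact hv1 s hs
  obtain ⟨φ, hφ⟩ := hS.extension_property (LinearMap.toSpanSingleton S V v1) hinj LinearMap.id
  have h1 : φ v1 = 1 := by
    have h2 := LinearMap.congr_fun hφ 1
    simpa using h2
  refine ⟨φ (Y v1), fun v => ?_⟩
  have h3 := hY ((LinearMap.toSpanSingleton S V v) ∘ₗ φ) v1
  rw [LinearMap.comp_apply, LinearMap.comp_apply, LinearMap.toSpanSingleton_apply,
    LinearMap.toSpanSingleton_apply, h1, one_smul] at h3
  exact h3

open Polynomial in
theorem bicomm {F : Type} [Field F] {I : Type} [Fintype I] [DecidableEq I] (X Y : Matrix I I F)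
    (h : ∀ b : Matrix I I F, X * b = b * X → Y * b = b * Y) : Y ∈ Algebra.adjoin F {X} := by
  set φ : Module.End F (I → F) := Matrix.toLinAlgEquiv' X with hφ
  let V := Module.AEval' φ
  let J := Module.annihilator F[X] V
  have hJ : J ≠ ⊥ := by
    intro h0
    have h1 : minpoly F φ ∈ J := by
      change minpoly F φ ∈ Module.annihilator F[X] (Module.AEval' φ)
      rw [Module.AEval.annihilator_eq_ker_aeval, RingHom.mem_ker]
      exact minpoly.aeval F φ
    rw [h0, Ideal.mem_bot] at h1
    exact minpoly.ne_zero (Algebra.IsIntegral.isIntegral φ) h1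
  obtain ⟨v1, hv1⟩ := Module.exists_ker_toSpanSingleton_eq_annihilator (R := F[X]) (M := V)
  let : Module (F[X] ⧸ J) V := Module.quotientAnnihilator
  have hmk : ∀ (r : F[X]) (v : V), (Ideal.Quotient.mk J r) • v = r • v := fun r v => rfl
  have hv1' : ∀ s : F[X] ⧸ J, s • v1 = 0 → s = 0 := by
    intro s hs
    obtain ⟨r, rfl⟩ := Ideal.Quotient.mk_surjective s
    rw [hmk] at hs
    rw [Ideal.Quotient.eq_zero_iff_mem]
    change r ∈ Module.annihilator F[X] V
    rw [← hv1]
    exact hs
  let of : (I → F) ≃ₗ[F] V := Module.AEval'.of φ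
  let Y' : V → V := fun v => of (Matrix.toLinAlgEquiv' Y (of.symm v))
  obtain ⟨s, hs⟩ := bic_main (bic_baer J hJ) v1 hv1' Y' (by
    intro b v
    have hb : ∀ (r : F[X]) (v : V), b (r • v) = r • b v := by
      intro r v
      rw [← hmk, map_smul, hmk]
    let b' : Module.End F (I → F) :=
      { toFun := fun w => of.symm (b (of w))
        map_add' := by
          intro w w'
          rw [map_add, map_add, map_add]
        map_smul' := by
          intro c w
          have h1 : of (c • w) = (C c : F[X]) • of w := by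
            rw [map_smul]
            exact (Module.AEval.C_smul φ c (of w)).symm
          have h2 : ∀ u : V, (C c : F[X]) • u = c • u := fun u => Module.AEval.C_smul φ c u
          rw [h1, hb, h2, map_smul]
          rfl }
    have hcomm : φ * b' = b' * φ := by
      apply LinearMap.ext
      intro w
      have h1 : ∀ w : I → F, of (φ w) = (Polynomial.X : F[X]) • of w := fun w =>
        (Module.AEval'.X_smul_of φ w).symm
      apply of.injective
      change of (φ (of.symm (b (of w)))) = of (of.symm (b (of (φ w))))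
      rw [h1, h1, LinearEquiv.apply_symm_apply, LinearEquiv.apply_symm_apply, hb]
    have h1 : X * Matrix.toLinAlgEquiv'.symm b' = Matrix.toLinAlgEquiv'.symm b' * X := by
      apply Matrix.toLinAlgEquiv'.injective
      rw [map_mul, map_mul, AlgEquiv.apply_symm_apply]
      exact hcomm
    have h2 := congrArg Matrix.toLinAlgEquiv' (h _ h1)
    rw [map_mul, map_mul, AlgEquiv.apply_symm_apply] at h2
    have h3 := LinearMap.congr_fun h2 (of.symm v)
    have h4 : Matrix.toLinAlgEquiv' Y (of.symm (b (of (of.symm v)))) =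
        of.symm (b (of (Matrix.toLinAlgEquiv' Y (of.symm v)))) := h3
    change of (Matrix.toLinAlgEquiv' Y (of.symm (b v))) =
      b (of (Matrix.toLinAlgEquiv' Y (of.symm v)))
    rw [LinearEquiv.apply_symm_apply] at h4
    rw [h4, LinearEquiv.apply_symm_apply])
  obtain ⟨f, rfl⟩ := Ideal.Quotient.mk_surjective s
  have h5 : Matrix.toLinAlgEquiv' Y = aeval φ f := by
    apply LinearMap.ext
    intro w
    have h6 := hs (of w)
    rw [hmk] at h6
    have h7 : of (Matrix.toLinAlgEquiv' Y (of.symm (of w))) = of (aeval φ f w) := h6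
    rw [LinearEquiv.symm_apply_apply] at h7
    exact of.injective h7
  have h8 : Y = aeval X f := by
    apply Matrix.toLinAlgEquiv'.injective
    rw [h5, hφ]
    exact Polynomial.aeval_algHom_apply (Matrix.toLinAlgEquiv' : Matrix I I F ≃ₐ[F] _) X f
  rw [h8]
  exact Polynomial.aeval_mem_adjoin_singleton F X

end Pool.Agent.Lib.MP_640417_ag.Dt
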