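import Pool.Agent.Lib.MP_640417_ag.Dt.Base
import Pool.Agent.Lib.MP_640417_ag.Glob.Proj
import Pool.Agent.Lib.MP_640417_ag.Gn.Dec

/-!
# MP_640417_ag, Dt, module Delta (250 lines): an isolated weight gives an element of the Lie algebra

`g = (M γ).map` is diagonalizable, `c' = c.map` with `c ∈ Zm`, `D : WDec J' g c' μ'`. The weight `a` is isolated: if
`k a + k b + k u + k v = 0` and `z a z b z u z v = μ'^2` then `b`, `u` or `v` is `st a`; and `st a ≠ a`. `δ = ε a - ε (st a)`.
* `g ε_b = z_b ε_b` for all `b`: `g` is semisimple, `(g - z_b) ε_b` is nilpotent.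
* Let `d b = 1` for `b = a`, `-1` for `b = st a`, `0` otherwise. For all `b, u, v, w` with `k_b + k_u + k_v + k_w = 0` and
  `z_b z_u z_v z_w = μ'^2`: `d b + d u + d v + d w = 0`. (If one of them is `a`, another one is `st a`, and the remaining two have
  `k + k' = 0`, `z z' = μ'` so are exchanged by `st` (`inj`), and `d (st x) = - d x`. If one of them is `st a` apply `st` to all four.)
* Let `p` be the projection to `HpK` for the trace form (`exists_proj` over `K`, `hpk_nondeg`). `p` commutes with conjugation by `g`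
  (`hpk_ad` for `γ`, `γ⁻¹`), and `p [c', Y] = 0 = [c', p Y]` (`c'` commutes with `HpK`, `hpk_comm`; `tr ([c', Y] X) = tr (Y [X, c'])`).
  For `Y = ε_b Y ε_u`: `[c', Y] = (k_b - k_u) Y`, `g Y g⁻¹ = (z_b / z_u) Y`. So if `ε_b' (p Y) ε_u' ≠ 0` then `k_b = k_u`, `k_b' = k_u'`,
  `z_b z_u' = z_u z_b'`, and the relation for `(b, st u, st b', u')` gives `d b - d u = d b' - d u'`. So `[δ, p Y] = p [δ, Y]` for all
  such `Y`, so for all `Y` (`Y = ∑ ε_b Y ε_u`).
* For `Y ∈ HpK`: `[δ, Y] = [δ, p Y] = p [δ, Y] ∈ HpK`. `δ1 = δ - p δ` is orthogonal to `HpK`, `[δ1, Y] ∈ HpK`,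
  `tr ([δ1, Y] Z) = tr (δ1 [Y, Z]) = 0` for `Z ∈ HpK`, so `[δ1, Y] = 0` (`hpk_nondeg`), and `δ1 ∈ InCK` by `hpk_cent`. `δ1` commutes with
  the commutant (`D.comm`: elements of the commutant commute with `g` (`inCK_full`) and with `c'`; `hpk_comm` for `p δ`) and is skew
  (`D.star`, `adj_skew`, `hpk_skew`), so `δ1 ∈ HpK` by `hpk_zm`, so `δ1 = p δ1 = p δ - p (p δ) = 0` and `δ = p δ ∈ HpK`.
-/

set_option autoImplicit false

namespace Pool.Agent.Lib.MP_640417_ag.Dt

open Matrix Pool.Agent.Lib.MP_640417_ag.Glob Pool.Agent.Lib.MP_640417_ag.Ctl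
  Pool.Agent.Lib.MP_640417_ag.Ty Pool.Agent.Lib.MP_640417_ag.Gn

variable {F : Type} [NontriviallyNormedField F] {I : Type} [Fintype I] [DecidableEq I]
  {Γ : Type} [Group Γ] [TopologicalSpace Γ]
  [IsUltrametricDist F] [CompleteSpace F] [CharZero F] [IsTopologicalGroup Γ]
  [CompactSpace Γ] (ρ : MRep Γ F I)

/-- the index `a` is isolated -/
def IsoI {K : Type} [Field K] {J g c : Matrix I I K} {μ : K} (D : WDec J g c μ) (a : Fin D.n) :
    Prop :=
  D.st a ≠ a ∧ ∀ b u v, D.k a + D.k b + D.k u + D.k v = 0 →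
    D.z a * D.z b * D.z u * D.z v = μ ^ 2 → b = D.st a ∨ u = D.st a ∨ v = D.st a

section combinatorics

variable {K : Type} [Field K] {J g c : Matrix I I K} {μ : K} (D : WDec J g c μ) (a : Fin D.n)

private def dd (b : Fin D.n) : K := if b = a then 1 else if b = D.st a then -1 else 0

private theorem dd_st (hst : D.st a ≠ a) (b : Fin D.n) : dd D a (D.st b) = - dd D a b := by
  unfold dd
  by_cases h1 : b = a
  · rw [h1, if_neg hst, if_pos rfl, if_pos rfl]
  · by_cases h2 : b = D.st a
    · rw [h2, D.st_st, if_pos rfl, if_neg hst, if_pos rfl, neg_neg]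
    · have h3 : D.st b ≠ a := fun h => h2 (by rw [← h, D.st_st])
      have h4 : D.st b ≠ D.st a := fun h => h1 (by rw [← D.st_st b, h, D.st_st])
      rw [if_neg h1, if_neg h2, if_neg h3, if_neg h4, neg_zero]

private theorem kst (b : Fin D.n) : D.k (D.st b) = - D.k b := by
  have h := D.kdual b
  linear_combination h

private theorem z_ne (hμ : μ ≠ 0) (b : Fin D.n) : D.z b ≠ 0 := by
  intro h
  apply hμ
  rw [← D.zdual b, h, zero_mul]

private theorem zst (hμ : μ ≠ 0) (b : Fin D.n) : D.z (D.st b) = μ / D.z b := by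
  rw [eq_div_iff (z_ne D hμ b), mul_comm]
  exact D.zdual b

private theorem rel0 (hμ : μ ≠ 0) (hst : D.st a ≠ a) (v w : Fin D.n) (hk : D.k v + D.k w = 0)
    (hz : D.z v * D.z w = μ) : dd D a v + dd D a w = 0 := by
  have h1 : w = D.st v := by
    apply D.inj
    · rw [zst D hμ, eq_div_iff (z_ne D hμ v), mul_comm]
      exact hz
    · rw [kst]
      linear_combination hk
  rw [h1, dd_st D a hst, add_neg_cancel]

private theorem rel1 (hμ : μ ≠ 0) (ha : IsoI D a) (u v w : Fin D.n)
    (hk : D.k a + D.k u + D.k v + D.k w = 0)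
    (hz : D.z a * D.z u * D.z v * D.z w = μ ^ 2) :
    dd D a a + dd D a u + dd D a v + dd D a w = 0 := by
  have hd := dd_st D a ha.1 a
  have hkd := D.kdual a
  have hzd := D.zdual a
  rcases ha.2 u v w hk hz with h | h | h
  · have h1 := rel0 D a hμ ha.1 v w (by rw [h] at hk; linear_combination hk - hkd) (by
      have h2 : μ * (D.z v * D.z w) = μ * μ := by
        rw [h] at hz
        linear_combination hz - D.z v * D.z w * hzd
      exact mul_left_cancel₀ hμ h2)
    rw [h, hd]
    linear_combination h1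
  · have h1 := rel0 D a hμ ha.1 u w (by rw [h] at hk; linear_combination hk - hkd) (by
      have h2 : μ * (D.z u * D.z w) = μ * μ := by
        rw [h] at hz
        linear_combination hz - D.z u * D.z w * hzd
      exact mul_left_cancel₀ hμ h2)
    rw [h, hd]
    linear_combination h1
  · have h1 := rel0 D a hμ ha.1 u v (by rw [h] at hk; linear_combination hk - hkd) (by
      have h2 : μ * (D.z u * D.z v) = μ * μ := by
        rw [h] at hz
        linear_combination hz - D.z u * D.z v * hzd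
      exact mul_left_cancel₀ hμ h2)
    rw [h, hd]
    linear_combination h1

private theorem rel2 (hμ : μ ≠ 0) (ha : IsoI D a) (b u v w : Fin D.n)
    (hk : D.k b + D.k u + D.k v + D.k w = 0)
    (hz : D.z b * D.z u * D.z v * D.z w = μ ^ 2) (h : b = a ∨ u = a ∨ v = a ∨ w = a) :
    dd D a b + dd D a u + dd D a v + dd D a w = 0 := by
  rcases h with h | h | h | h
  · rw [h] at hk hz ⊢
    exact rel1 D a hμ ha u v w hk hz
  · rw [h] at hk hz ⊢
    linear_combination rel1 D a hμ ha b v w (by linear_combination hk) (by linear_combination hz)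
  · rw [h] at hk hz ⊢
    linear_combination rel1 D a hμ ha b u w (by linear_combination hk) (by linear_combination hz)
  · rw [h] at hk hz ⊢
    linear_combination rel1 D a hμ ha b u v (by linear_combination hk) (by linear_combination hz)

private theorem rel3 (hμ : μ ≠ 0) (ha : IsoI D a) (b u v w : Fin D.n)
    (hk : D.k b + D.k u + D.k v + D.k w = 0)
    (hz : D.z b * D.z u * D.z v * D.z w = μ ^ 2) :
    dd D a b + dd D a u + dd D a v + dd D a w = 0 := by
  by_cases h1 : b = a ∨ u = a ∨ v = a ∨ w = a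
  · exact rel2 D a hμ ha b u v w hk hz h1
  · by_cases h2 : D.st b = a ∨ D.st u = a ∨ D.st v = a ∨ D.st w = a
    · have h3 := rel2 D a hμ ha (D.st b) (D.st u) (D.st v) (D.st w)
        (by rw [kst, kst, kst, kst]; linear_combination -hk) (by
          rw [zst D hμ, zst D hμ, zst D hμ, zst D hμ, div_mul_div_comm, div_mul_div_comm,
            div_mul_div_comm, hz]
          field_simp) h2
      rw [dd_st D a ha.1, dd_st D a ha.1, dd_st D a ha.1, dd_st D a ha.1] at h3
      linear_combination -h3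
    · have h4 : ∀ x, x ≠ a → D.st x ≠ a → dd D a x = 0 := by
        intro x hx hx'
        unfold dd
        rw [if_neg hx, if_neg (fun h => hx' (by rw [h, D.st_st]))]
      push Not at h1 h2
      rw [h4 b h1.1 h2.1, h4 u h1.2.1 h2.2.1, h4 v h1.2.2.1 h2.2.2.1, h4 w h1.2.2.2 h2.2.2.2]
      ring

private theorem delta_mul (b : Fin D.n) (hst : D.st a ≠ a) :
    (D.ε a - D.ε (D.st a)) * D.ε b = dd D a b • D.ε b := by
  unfold dd
  by_cases h1 : b = a
  · rw [if_pos h1, h1, Matrix.sub_mul, D.idem, D.orth _ _ hst, sub_zero, one_smul]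
  · by_cases h2 : b = D.st a
    · rw [if_neg h1, if_pos h2, h2, Matrix.sub_mul, D.idem, D.orth _ _ hst.symm, zero_sub,
        neg_one_smul]
    · rw [if_neg h1, if_neg h2, Matrix.sub_mul, D.orth _ _ (Ne.symm h1),
        D.orth _ _ (Ne.symm h2), sub_zero, zero_smul]

private theorem mul_delta (b : Fin D.n) (hst : D.st a ≠ a) :
    D.ε b * (D.ε a - D.ε (D.st a)) = dd D a b • D.ε b := by
  unfold dd
  by_cases h1 : b = a
  · rw [if_pos h1, h1, Matrix.mul_sub, D.idem, D.orth _ _ hst.symm, sub_zero, one_smul]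
  · by_cases h2 : b = D.st a
    · rw [if_neg h1, if_pos h2, h2, Matrix.mul_sub, D.idem, D.orth _ _ hst, zero_sub,
        neg_one_smul]
    · rw [if_neg h1, if_neg h2, Matrix.mul_sub, D.orth _ _ h1,
        D.orth _ _ h2, sub_zero, zero_smul]

/-- a matrix is zero if all its components are zero -/
private theorem comp_ext {X Y : Matrix I I K} (h : ∀ b u, D.ε b * X * D.ε u = D.ε b * Y * D.ε u) :
    X = Y := by
  have h1 : ∀ Z : Matrix I I K, Z = ∑ b, ∑ u, D.ε b * Z * D.ε u := by
    intro Z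
    calc Z = (∑ b, D.ε b) * Z * ∑ u, D.ε u := by rw [D.sum, Matrix.one_mul, Matrix.mul_one]
      _ = ∑ b, ∑ u, D.ε b * Z * D.ε u := by
        rw [Finset.sum_mul, Finset.sum_mul]
        refine Finset.sum_congr rfl (fun b _ => ?_)
        rw [Finset.mul_sum]
  rw [h1 X, h1 Y]
  exact Finset.sum_congr rfl (fun b _ => Finset.sum_congr rfl (fun u _ => h b u))

/-- the abstract statement -/
private theorem delta_abs (hμ : μ ≠ 0) {g' : Matrix I I K} (hgg : g * g' = 1) (hg'g : g' * g = 1)
    (heig : ∀ b, g * D.ε b = D.z b • D.ε b) (ha : IsoI D a) (H : Submodule K (Matrix I I K))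
    (hnd : ∀ X ∈ H, (∀ Y ∈ H, (X * Y).trace = 0) → X = 0)
    (hlie : ∀ X ∈ H, ∀ Y ∈ H, X * Y - Y * X ∈ H)
    (had : ∀ X ∈ H, g * X * g' ∈ H) (had' : ∀ X ∈ H, g' * X * g ∈ H)
    (hcH : ∀ X ∈ H, X * c = c * X)
    (hfin : ∀ P ∈ H, (∀ X ∈ H, X * ((D.ε a - D.ε (D.st a)) - P) =
      ((D.ε a - D.ε (D.st a)) - P) * X) → (D.ε a - D.ε (D.st a)) - P ∈ H) :
    D.ε a - D.ε (D.st a) ∈ H := by
  obtain ⟨p, hpH, hpid, hptr, hpad⟩ := exists_proj H hnd
  set δ := D.ε a - D.ε (D.st a) with hδ
  have heps : ∀ b, D.ε b * g = D.z b • D.ε b := by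
    intro b
    rw [← D.comm b g rfl D.cg.symm]
    exact heig b
  have hepc : ∀ b, D.ε b * c = D.k b • D.ε b := by
    intro b
    rw [← D.comm b c D.cg rfl]
    exact D.ceig b
  have hg'l : ∀ b, g' * D.ε b = (D.z b)⁻¹ • D.ε b := by
    intro b
    have h1 : D.ε b = (D.z b)⁻¹ • (g * D.ε b) := by
      rw [heig, smul_smul, inv_mul_cancel₀ (z_ne D hμ b), one_smul]
    conv_lhs => rw [h1]
    rw [Matrix.mul_smul, ← Matrix.mul_assoc, hg'g, Matrix.one_mul]
  have hg'r : ∀ b, D.ε b * g' = (D.z b)⁻¹ • D.ε b := by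
    intro b
    have h1 : D.ε b = (D.z b)⁻¹ • (D.ε b * g) := by
      rw [heps, smul_smul, inv_mul_cancel₀ (z_ne D hμ b), one_smul]
    conv_lhs => rw [h1]
    rw [Matrix.smul_mul, Matrix.mul_assoc, hgg, Matrix.mul_one]
  -- `p` kills brackets with `c`
  have hpc : ∀ Y, p (c * Y - Y * c) = 0 := by
    intro Y
    refine hnd _ (hpH _) (fun X hX => ?_)
    rw [hptr _ X hX, Matrix.sub_mul, Matrix.trace_sub]
    have h1 : (c * Y * X).trace = (Y * (X * c)).trace := by
      rw [Matrix.mul_assoc, Matrix.trace_mul_comm, Matrix.mul_assoc]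
    rw [h1, hcH X hX, Matrix.mul_assoc, sub_self]
  -- `p` commutes with the bracket with `δ`, on components
  have hstep : ∀ (Y : Matrix I I K) (b u : Fin D.n), p (δ * (D.ε b * Y * D.ε u) -
      (D.ε b * Y * D.ε u) * δ) = δ * p (D.ε b * Y * D.ε u) - p (D.ε b * Y * D.ε u) * δ := by
    intro Y₀ b u
    set Y := D.ε b * Y₀ * D.ε u with hY
    have hgY : g * Y * g' = (D.z b * (D.z u)⁻¹) • Y := by
      have h1 : g * Y * g' = (g * D.ε b) * Y₀ * (D.ε u * g') := by
        rw [hY]
        simp only [Matrix.mul_assoc]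
      rw [h1, heig, hg'r, Matrix.smul_mul, Matrix.smul_mul, Matrix.mul_smul, smul_smul]
    have hcY : c * Y - Y * c = (D.k b - D.k u) • Y := by
      have h1 : c * Y - Y * c = (c * D.ε b) * Y₀ * D.ε u - D.ε b * Y₀ * (D.ε u * c) := by
        rw [hY]
        simp only [Matrix.mul_assoc]
      rw [h1, D.ceig, hepc, Matrix.smul_mul, Matrix.smul_mul, Matrix.mul_smul, sub_smul]
    have hδY : δ * Y - Y * δ = (dd D a b - dd D a u) • Y := by
      have h1 : δ * Y - Y * δ = (δ * D.ε b) * Y₀ * D.ε u - D.ε b * Y₀ * (D.ε u * δ) := by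
        rw [hY]
        simp only [Matrix.mul_assoc]
      rw [h1, hδ, delta_mul D a b ha.1, mul_delta D a u ha.1, Matrix.smul_mul, Matrix.smul_mul,
        Matrix.mul_smul, sub_smul]
    have hk1 : (D.k b - D.k u) • p Y = 0 := by
      rw [← map_smul, ← hcY]
      exact hpc Y
    have hz1 : (D.z b * (D.z u)⁻¹) • p Y = g * p Y * g' := by
      rw [← map_smul, ← hgY]
      exact hpad g g' hgg hg'g had had' Y
    rw [hδY, map_smul]
    apply comp_ext D
    intro b' u'
    set E := D.ε b' * p Y * D.ε u' with hE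
    have h1 : D.ε b' * ((dd D a b - dd D a u) • p Y) * D.ε u' = (dd D a b - dd D a u) • E := by
      rw [Matrix.mul_smul, Matrix.smul_mul]
    have h2 : D.ε b' * (δ * p Y - p Y * δ) * D.ε u' = (dd D a b' - dd D a u') • E := by
      have h3 : D.ε b' * (δ * p Y - p Y * δ) * D.ε u' =
          (D.ε b' * δ) * p Y * D.ε u' - D.ε b' * p Y * (δ * D.ε u') := by
        rw [Matrix.mul_sub, Matrix.sub_mul]
        simp only [Matrix.mul_assoc]
      rw [h3, hδ, delta_mul D a u' ha.1, mul_delta D a b' ha.1, Matrix.smul_mul, Matrix.smul_mul,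
        Matrix.mul_smul, sub_smul]
    rw [h1, h2]
    by_cases hE0 : E = 0
    · rw [hE0, smul_zero, smul_zero]
    · have e1 : D.k b - D.k u = 0 := by
        have h4 : (D.k b - D.k u) • E = 0 := by
          rw [hE, ← Matrix.smul_mul, ← Matrix.mul_smul, hk1, Matrix.mul_zero, Matrix.zero_mul]
        exact (smul_eq_zero.mp h4).resolve_right hE0
      have e2 : D.k b' - D.k u' = 0 := by
        have h4 : (D.k b' - D.k u') • E = 0 := by
          have h5 : D.ε b' * (c * p Y - p Y * c) * D.ε u' = (D.k b' - D.k u') • E := by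
            have h3 : D.ε b' * (c * p Y - p Y * c) * D.ε u' =
                (D.ε b' * c) * p Y * D.ε u' - D.ε b' * p Y * (c * D.ε u') := by
              rw [Matrix.mul_sub, Matrix.sub_mul]
              simp only [Matrix.mul_assoc]
            rw [h3, hepc, D.ceig, Matrix.smul_mul, Matrix.smul_mul, Matrix.mul_smul, sub_smul]
          rw [← h5, hcH _ (hpH Y), sub_self, Matrix.mul_zero, Matrix.zero_mul]
        exact (smul_eq_zero.mp h4).resolve_right hE0
      have e3 : D.z b * (D.z u)⁻¹ = D.z b' * (D.z u')⁻¹ := by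
        have h4 : (D.z b * (D.z u)⁻¹) • E = (D.z b' * (D.z u')⁻¹) • E := by
          have h5 : D.ε b' * (g * p Y * g') * D.ε u' = (D.z b' * (D.z u')⁻¹) • E := by
            have h3 : D.ε b' * (g * p Y * g') * D.ε u' =
                (D.ε b' * g) * p Y * (g' * D.ε u') := by
              simp only [Matrix.mul_assoc]
            rw [h3, heps, hg'l, Matrix.smul_mul, Matrix.smul_mul, Matrix.mul_smul, smul_smul]
          rw [← h5, ← hz1, Matrix.mul_smul, Matrix.smul_mul]
        have h6 : (D.z b * (D.z u)⁻¹ - D.z b' * (D.z u')⁻¹) • E = 0 := by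
          rw [sub_smul, h4, sub_self]
        exact sub_eq_zero.mp ((smul_eq_zero.mp h6).resolve_right hE0)
      have hzu := z_ne D hμ u
      have hzb' := z_ne D hμ b'
      have hzu' := z_ne D hμ u'
      have e4 : D.z b * D.z u' = D.z b' * D.z u := by
        field_simp at e3
        linear_combination e3
      have h7 := rel3 D a hμ ha b (D.st u) (D.st b') u' (by
        rw [kst, kst]
        linear_combination e1 - e2) (by
        rw [zst D hμ, zst D hμ]
        field_simp
        linear_combination e4)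
      rw [dd_st D a ha.1, dd_st D a ha.1] at h7
      have h8 : dd D a b - dd D a u = dd D a b' - dd D a u' := by linear_combination h7
      rw [h8]
  have hcomm : ∀ Y, p (δ * Y - Y * δ) = δ * p Y - p Y * δ := by
    intro Y
    have h1 : Y = ∑ b, ∑ u, D.ε b * Y * D.ε u := by
      calc Y = (∑ b, D.ε b) * Y * ∑ u, D.ε u := by rw [D.sum, Matrix.one_mul, Matrix.mul_one]
        _ = ∑ b, ∑ u, D.ε b * Y * D.ε u := by
          rw [Finset.sum_mul, Finset.sum_mul]
          refine Finset.sum_congr rfl (fun b _ => ?_)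
          rw [Finset.mul_sum]
    rw [h1]
    simp only [Finset.mul_sum, Finset.sum_mul, map_sum, ← Finset.sum_sub_distrib]
    exact Finset.sum_congr rfl (fun b _ => Finset.sum_congr rfl (fun u _ => hstep Y b u))
  have hbr : ∀ Y ∈ H, δ * Y - Y * δ ∈ H := by
    intro Y hY
    have h1 := hcomm Y
    rw [hpid Y hY] at h1
    rw [← h1]
    exact hpH _
  have hort : ∀ X ∈ H, ((δ - p δ) * X).trace = 0 := by
    intro X hX
    rw [Matrix.sub_mul, Matrix.trace_sub, hptr δ X hX, sub_self]
  have hc1 : ∀ X ∈ H, X * (δ - p δ) = (δ - p δ) * X := by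
    intro X hX
    have h1 : (δ - p δ) * X - X * (δ - p δ) ∈ H := by
      have h2 : (δ - p δ) * X - X * (δ - p δ) = (δ * X - X * δ) - (p δ * X - X * p δ) := by
        rw [Matrix.sub_mul, Matrix.mul_sub]
        abel
      rw [h2]
      exact H.sub_mem (hbr X hX) (hlie _ (hpH δ) X hX)
    have h3 := hnd _ h1 (fun Z hZ => by
      have h4 := hort _ (hlie X hX Z hZ)
      generalize δ - p δ = R at h4 ⊢
      rw [← h4, Matrix.sub_mul, Matrix.trace_sub, Matrix.mul_sub, Matrix.trace_sub]
      congr 1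
      · rw [Matrix.mul_assoc]
      · rw [Matrix.mul_assoc, Matrix.trace_mul_comm, Matrix.mul_assoc])
    exact (sub_eq_zero.mp h3).symm
  have hm := hfin (p δ) (hpH δ) hc1
  have h0 := hnd _ hm hort
  rw [sub_eq_zero.mp h0]
  exact hpH δ

end combinatorics

theorem delta_mem (l : ℕ) (hl : ‖(l : F)‖ < 1) (hl0 : (l : F) ≠ 0) (hsemi : ρ.Semi)
    (hfull : Full0 ρ) (K : Type) [Field K] [Algebra F K] [IsAlgClosed K] (γ : Γ)
    (hγ : Module.End.IsSemisimple (Matrix.toLin' ((ρ.M γ).map (algebraMap F K))))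
    {c : Matrix I I F} (hc : c ∈ Zm ρ)
    (D : WDec (ρ.J.map (algebraMap F K)) ((ρ.M γ).map (algebraMap F K))
      (c.map (algebraMap F K)) (algebraMap F K (ρ.μ γ : F))) (a : Fin D.n) (ha : IsoI D a) :
    D.ε a - D.ε (D.st a) ∈ HpK ρ l K := by
  have hμ : algebraMap F K (ρ.μ γ : F) ≠ 0 := by
    rw [Ne, map_eq_zero]
    exact (ρ.μ γ).ne_zero
  have hJ : (ρ.J.map (algebraMap F K)).det ≠ 0 := by
    have e : (ρ.J.map (algebraMap F K)).det = algebraMap F K ρ.J.det := by
      rw [RingHom.map_det, RingHom.mapMatrix_apply]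
    rw [e, Ne, map_eq_zero]
    exact ρ.det
  have hmap : ∀ A B : Matrix I I F, A * B = 1 →
      A.map (algebraMap F K) * B.map (algebraMap F K) = 1 := by
    intro A B h
    rw [← Matrix.map_mul, h, Matrix.map_one _ (map_zero _) (map_one _)]
  have heig : ∀ b, (ρ.M γ).map (algebraMap F K) * D.ε b = D.z b • D.ε b := by
    intro b
    apply (Matrix.toLin' : Matrix I I K ≃ₗ[K] _).injective
    apply LinearMap.ext
    intro v
    have h1 := D.range b v
    rw [hγ.isFinitelySemisimple.maxGenEigenspace_eq_eigenspace,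
      Module.End.mem_eigenspace_iff, Matrix.toLin'_apply] at h1
    rw [Matrix.toLin'_apply, ← Matrix.mulVec_mulVec, h1, map_smul, LinearMap.smul_apply,
      Matrix.toLin'_apply]
  have hcK : c.map (algebraMap F K) ∈ HpK ρ l K :=
    Submodule.subset_span ⟨c, Submodule.mem_sup_right hc, rfl⟩
  refine delta_abs D a hμ (hmap _ _ (M_mul_inv ρ γ)) (hmap _ _ (M_inv_mul ρ γ)) heig ha
    (HpK ρ l K) (fun X hX h => hpk_nondeg ρ l hl hl0 K hsemi X hX h)
    (fun X hX Y hY => hpk_lie ρ l hl hl0 K hX hY) (fun X hX => hpk_ad ρ l hl hl0 K γ hX)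
    (fun X hX => ?_) (fun X hX => hpk_comm ρ l hl hl0 K hX (inCK_map ρ K hc.1)) ?_
  · have h1 := hpk_ad ρ l hl hl0 K γ⁻¹ hX
    rwa [inv_inv] at h1
  · intro P hP hcom
    refine hpk_zm ρ l hl hl0 K hfull (hpk_cent ρ l hl hl0 K hcom) ?_ ?_
    · intro d hd
      have h1 : d * (ρ.M γ).map (algebraMap F K) = (ρ.M γ).map (algebraMap F K) * d :=
        (inCK_full ρ K hfull hd γ).symm
      have h2 : d * c.map (algebraMap F K) = c.map (algebraMap F K) * d :=
        (hpk_comm ρ l hl hl0 K hcK hd).symm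
      rw [Matrix.sub_mul, Matrix.mul_sub, Matrix.sub_mul, Matrix.mul_sub, D.comm a d h1 h2,
        D.comm (D.st a) d h1 h2, hpk_comm ρ l hl hl0 K hP hd]
    · have h3 : (D.ε a - D.ε (D.st a))ᵀ * ρ.J.map (algebraMap F K) +
          ρ.J.map (algebraMap F K) * (D.ε a - D.ε (D.st a)) = 0 := by
        rw [adj_skew hJ]
        have h4 : ∀ A B : Matrix I I K, adj (ρ.J.map (algebraMap F K)) (A - B) =
            adj (ρ.J.map (algebraMap F K)) A - adj (ρ.J.map (algebraMap F K)) B := by
          intro A B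
          unfold adj
          rw [Matrix.transpose_sub, Matrix.mul_sub, Matrix.sub_mul]
        rw [h4, D.star, D.star, D.st_st, neg_sub]
      have h5 := hpk_skew ρ l hl hl0 K hP
      rw [Matrix.transpose_sub, Matrix.sub_mul, Matrix.mul_sub]
      have h6 : ∀ A B C E : Matrix I I K, A + C = 0 → B + E = 0 → A - B + (C - E) = 0 := by
        intro A B C E hA hB
        have : A - B + (C - E) = (A + C) - (B + E) := by abel
        rw [this, hA, hB, sub_zero]
      exact h6 _ _ _ _ h3 h5

end Pool.Agent.Lib.MP_640417_ag.Dt
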