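import Pool.Agent.Lib.MP_640417_ag.Dt.AlgC

/-!
# MP_640417_ag, Dt, module Ideal (120 lines): all skew matrices are in the Lie algebra

`S` is a set of small idempotents `ε s` (`EData`) such that `c ∈ C`, `c ε_s = 0` for all `s` implies `c = 0`. `T` = the span of all
`a ε_s b` with `a`, `b` commuting with `C`: closed under multiplication with matrices commuting with `C` on both sides. `1 ∈ T`:
* For every `v`: `v ∈ T v`: `T v` is stable under `H`; let `p ∈ C` be the projection onto it, `u = v - p v`; `t u = t v - p t v = 0` for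
  `t ∈ T`. The space `U = {u | t u = 0 for all t ∈ T}` is stable under `H` (`T H ⊆ T`), let `q ∈ C` be the projection onto it;
  `ε_s q v' = 0` for all `v'`, so `q ε_s = ε_s q = 0` for all `s`, so `q = 0`, `U = 0`, `u = 0`, `v = p v ∈ T v`.
* For finitely many `v_1, .., v_n` there is `t ∈ T` with `t v_j = v_j` for all `j`: induction: `t1 v_1 = v_1`, `t2 (v_j - t1 v_j) = v_j - t1 v_j`
  for `j ≥ 2`, `t = t1 + t2 - t2 t1`. Apply to the standard basis: `t = 1`.
If `X` is skew and commutes with `C` then `X = X 1 ∈ T`, so `X` is a combination of matrices `z = a ε_s b` with `z - z* ∈ H` (`concl`), and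
`2 X = X - X* ∈ H`.
-/

set_option autoImplicit false

namespace Pool.Agent.Lib.MP_640417_ag.Dt

open Matrix Pool.Agent.Lib.MP_640417_ag.Gn

variable {K : Type} [Field K] {I : Type} [Fintype I] [DecidableEq I]
  [CharZero K] {J : Matrix I I K} {H : Submodule K (Matrix I I K)}
  {C : Subalgebra K (Matrix I I K)} [IsAlgClosed K]

omit [CharZero K] [IsAlgClosed K] in
private theorem cm_mul {a b : Matrix I I K} (ha : Cm C a) (hb : Cm C b) : Cm C (a * b) := by
  intro c hc
  rw [mul_assoc, hb c hc, ← mul_assoc, ha c hc, mul_assoc]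

omit [CharZero K] [IsAlgClosed K] in
private theorem cm_one : Cm C (1 : Matrix I I K) := by
  intro c _
  rw [one_mul, mul_one]

/-- the two-sided ideal generated by the idempotents -/
private def TT {S : Type} (C : Subalgebra K (Matrix I I K)) (ε : S → Matrix I I K) :
    Submodule K (Matrix I I K) :=
  Submodule.span K {z | ∃ (s : S) (a b : Matrix I I K), Cm C a ∧ Cm C b ∧ z = a * ε s * b}

omit [CharZero K] [IsAlgClosed K] in
private theorem tt_left {S : Type} {ε : S → Matrix I I K} {x : Matrix I I K} (hx : Cm C x)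
    {t : Matrix I I K} (ht : t ∈ TT C ε) : x * t ∈ TT C ε := by
  unfold TT at ht ⊢
  induction ht using Submodule.span_induction with
  | mem z hz =>
    obtain ⟨s, a, b, ha, hb, rfl⟩ := hz
    refine Submodule.subset_span ⟨s, x * a, b, cm_mul hx ha, hb, ?_⟩
    simp only [mul_assoc]
  | zero =>
    rw [mul_zero]
    exact Submodule.zero_mem _
  | add y z _ _ hy hz =>
    rw [mul_add]
    exact Submodule.add_mem _ hy hz
  | smul r y _ hy =>
    rw [mul_smul_comm]
    exact Submodule.smul_mem _ r hy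

omit [CharZero K] [IsAlgClosed K] in
private theorem tt_right {S : Type} {ε : S → Matrix I I K} {x : Matrix I I K} (hx : Cm C x)
    {t : Matrix I I K} (ht : t ∈ TT C ε) : t * x ∈ TT C ε := by
  unfold TT at ht ⊢
  induction ht using Submodule.span_induction with
  | mem z hz =>
    obtain ⟨s, a, b, ha, hb, rfl⟩ := hz
    refine Submodule.subset_span ⟨s, a, b * x, ha, cm_mul hb hx, ?_⟩
    simp only [mul_assoc]
  | zero =>
    rw [zero_mul]
    exact Submodule.zero_mem _
  | add y z _ _ hy hz =>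
    rw [add_mul]
    exact Submodule.add_mem _ hy hz
  | smul r y _ hy =>
    rw [smul_mul_assoc]
    exact Submodule.smul_mem _ r hy

omit [CharZero K] [IsAlgClosed K] in
private theorem tt_cm {S : Type} {ε : S → Matrix I I K} (hε : ∀ s, Cm C (ε s))
    {t : Matrix I I K} (ht : t ∈ TT C ε) : Cm C t := by
  unfold TT at ht
  induction ht using Submodule.span_induction with
  | mem z hz =>
    obtain ⟨s, a, b, ha, hb, rfl⟩ := hz
    exact cm_mul (cm_mul ha (hε s)) hb
  | zero =>
    intro c _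
    rw [zero_mul, mul_zero]
  | add y z _ _ hy hz =>
    intro c hc
    rw [add_mul, mul_add, hy c hc, hz c hc]
  | smul r y _ hy =>
    intro c hc
    rw [smul_mul_assoc, mul_smul_comm, hy c hc]

omit [IsAlgClosed K] in
private theorem tt_vec (L : LData J H C) {S : Type} (ε : S → Matrix I I K)
    (h : ∀ s, EData J H C (ε s)) {X : Matrix I I K} (hX : Cm C X)
    (hdet : ∀ c ∈ C, (∀ s, c * ε s = 0) → c * X = 0) (v : I → K) :
    ∃ t ∈ TT C ε, (∀ t' ∈ TT C ε, t' *ᵥ (v - t *ᵥ v) = 0) ∧ X *ᵥ (v - t *ᵥ v) = 0 := by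
  have hε : ∀ s, Cm C (ε s) := fun s => (h s).cm
  -- the space `T v`
  let E : Submodule K (I → K) :=
    (TT C ε).map ((Matrix.mulVecBilin K K).flip v)
  have hE : ∀ w, w ∈ E ↔ ∃ t ∈ TT C ε, t *ᵥ v = w := by
    intro w
    exact Iff.rfl
  obtain ⟨p, hp, hp1, hp2⟩ := L.proj E (by
    intro X hX w hw
    obtain ⟨t, ht, rfl⟩ := (hE w).mp hw
    rw [hE]
    refine ⟨X * t, tt_left (L.cm X hX) ht, ?_⟩
    rw [Matrix.mulVec_mulVec])
  let U : Submodule K (I → K) :=
    { carrier := {u | ∀ t ∈ TT C ε, t *ᵥ u = 0}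
      add_mem' := by
        intro a b ha hb t ht
        rw [Matrix.mulVec_add, ha t ht, hb t ht, add_zero]
      zero_mem' := by
        intro t _
        rw [Matrix.mulVec_zero]
      smul_mem' := by
        intro r a ha t ht
        rw [Matrix.mulVec_smul, ha t ht, smul_zero] }
  have hU : ∀ u, u ∈ U ↔ ∀ t ∈ TT C ε, t *ᵥ u = 0 := fun u => Iff.rfl
  obtain ⟨q, hq, hq1, hq2⟩ := L.proj U (by
    intro X hX w hw
    rw [hU] at hw ⊢
    intro t ht
    rw [Matrix.mulVec_mulVec]
    exact hw _ (tt_right (L.cm X hX) ht))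
  have hq0 : q * X = 0 := by
    refine hdet q hq fun s => ?_
    rw [← hε s q hq]
    refine Matrix.ext_iff_mulVec.mpr fun w => ?_
    rw [← Matrix.mulVec_mulVec, Matrix.zero_mulVec]
    refine (hU _).mp (hq1 w) _ ?_
    refine Submodule.subset_span ⟨s, 1, 1, cm_one, cm_one, ?_⟩
    rw [one_mul, mul_one]
  have hu : v - p *ᵥ v ∈ U := by
    rw [hU]
    intro t ht
    rw [Matrix.mulVec_sub, Matrix.mulVec_mulVec, tt_cm hε ht p hp, ← Matrix.mulVec_mulVec,
      hp2 _ ((hE _).mpr ⟨t, ht, rfl⟩), sub_self]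
  obtain ⟨t, ht, htv⟩ := (hE _).mp (hp1 v)
  refine ⟨t, ht, ?_, ?_⟩
  · rw [htv]
    exact (hU _).mp hu
  · have h1 := hq2 _ hu
    rw [htv, ← h1, Matrix.mulVec_mulVec, hX q hq, hq0, Matrix.zero_mulVec]

omit [IsAlgClosed K] in
private theorem tt_vecs (L : LData J H C) {S : Type} (ε : S → Matrix I I K)
    (h : ∀ s, EData J H C (ε s)) {X : Matrix I I K} (hX : Cm C X)
    (hdet : ∀ c ∈ C, (∀ s, c * ε s = 0) → c * X = 0)
    (A : Finset I) : ∀ v : I → I → K, ∃ t ∈ TT C ε, ∀ j ∈ A, t *ᵥ v j = X *ᵥ v j := by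
  have hε : ∀ s, Cm C (ε s) := fun s => (h s).cm
  induction A using Finset.induction_on with
  | empty =>
    intro v
    exact ⟨0, Submodule.zero_mem _, fun j hj => absurd hj (Finset.notMem_empty j)⟩
  | insert j0 A _ ih =>
    intro v
    obtain ⟨t1, ht1, h1, h1'⟩ := tt_vec L ε h hX hdet (v j0)
    obtain ⟨t2, ht2, h2⟩ := ih (fun j => v j - t1 *ᵥ v j)
    refine ⟨X * t1 + t2 - t2 * t1, Submodule.sub_mem _ (Submodule.add_mem _ (tt_left hX ht1) ht2)
      (tt_left (tt_cm hε ht2) ht1), ?_⟩
    intro j hj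
    rw [Matrix.sub_mulVec, Matrix.add_mulVec, ← Matrix.mulVec_mulVec, ← Matrix.mulVec_mulVec]
    rcases Finset.mem_insert.mp hj with rfl | hj
    · have h3 := h1 t2 ht2
      rw [Matrix.mulVec_sub, sub_eq_zero] at h3
      rw [Matrix.mulVec_sub, sub_eq_zero] at h1'
      rw [h3, ← h1']
      abel
    · have h3 := h2 j hj
      rw [Matrix.mulVec_sub, Matrix.mulVec_sub] at h3
      have h4 : X *ᵥ t1 *ᵥ v j + t2 *ᵥ v j - t2 *ᵥ t1 *ᵥ v j =
          X *ᵥ t1 *ᵥ v j + (t2 *ᵥ v j - t2 *ᵥ t1 *ᵥ v j) := by abel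
      rw [h4, h3]
      abel

theorem all_skew1 (L : LData J H C) {S : Type} (ε : S → Matrix I I K)
    (h : ∀ s, EData J H C (ε s)) {X : Matrix I I K} (hX : Cm C X)
    (hdet : ∀ c ∈ C, (∀ s, c * ε s = 0) → c * X = 0) (hs : adj J X = -X) : X ∈ H := by
  obtain ⟨t, ht, h1⟩ := tt_vecs L ε h hX hdet Finset.univ (fun j => Pi.single j 1)
  have ht1 : t = X := by
    ext i j
    have h2 := congrFun (h1 j (Finset.mem_univ j)) i
    rw [Matrix.mulVec_single_one, Matrix.mulVec_single_one] at h2
    exact h2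
  have hXT : X ∈ TT C ε := by
    rw [ht1] at ht
    exact ht
  have key : ∀ z ∈ TT C ε, z - adj J z ∈ H := by
    intro z hz
    unfold TT at hz
    induction hz using Submodule.span_induction with
    | mem z hz =>
      obtain ⟨s, a, b, ha, hb, rfl⟩ := hz
      exact concl L (h s) ha hb
    | zero =>
      have : adj J (0 : Matrix I I K) = 0 := by
        unfold adj
        rw [Matrix.transpose_zero, mul_zero, zero_mul]
      rw [this, sub_zero]
      exact Submodule.zero_mem _
    | add y z _ _ hy hz =>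
      have : adj J (y + z) = adj J y + adj J z := by
        unfold adj
        rw [Matrix.transpose_add, mul_add, add_mul]
      rw [this]
      have h2 : y + z - (adj J y + adj J z) = (y - adj J y) + (z - adj J z) := by abel
      rw [h2]
      exact Submodule.add_mem _ hy hz
    | smul r y _ hy =>
      have : adj J (r • y) = r • adj J y := by
        unfold adj
        rw [Matrix.transpose_smul, mul_smul_comm, smul_mul_assoc]
      rw [this, ← smul_sub]
      exact Submodule.smul_mem _ r hy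
  have h2 := key X hXT
  rw [hs, sub_neg_eq_add, ← two_smul K X] at h2
  have h3 := Submodule.smul_mem H (2 : K)⁻¹ h2
  rw [smul_smul, inv_mul_cancel₀ two_ne_zero, one_smul] at h3
  exact h3

theorem all_skew (L : LData J H C) {S : Type} (ε : S → Matrix I I K)
    (h : ∀ s, EData J H C (ε s)) (hdet : ∀ c ∈ C, (∀ s, c * ε s = 0) → c = 0)
    {X : Matrix I I K} (hX : Cm C X) (hs : adj J X = -X) : X ∈ H :=
  all_skew1 L ε h hX (fun c hc h0 => by rw [hdet c hc h0, zero_mul]) hs

end Pool.Agent.Lib.MP_640417_ag.Dt
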