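import Pool.Agent.Lib.MP_640417_ag.Dt.AlgA

/-!
# MP_640417_ag, Dt, module IrrA (100 lines): the adjoint of an irreducible idempotent

`C` is stable under `adj J`, `ε` an idempotent whose range is irreducible under `C`. Let `E` be a subspace of the range of `ε' = adj J ε`
stable under `C`, `E' = {v | ε v = v, w ⬝ᵥ (J v) = 0 for all w ∈ E}`, a subspace of the range of `ε` stable under `C`
(`w ⬝ᵥ J (c v) = (adj J c) w ⬝ᵥ J v` up to the sign conventions). If `E'` contains the range of `ε`: then `E` is orthogonal to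
`ε v` for all `v`, and `w ⬝ᵥ J v = (ε' w) ⬝ᵥ J v = w ⬝ᵥ J (ε v) = 0` for `w ∈ E` and all `v`, so `w = 0` (`J` invertible). If `E' = 0` and `E` is
not the whole range of `ε'`: there is a linear functional which is zero on `E` and not zero on the range of `ε'`; it is
`w ↦ w ⬝ᵥ J v` for some `v`, and `w ⬝ᵥ J v = w ⬝ᵥ J (ε v)` for `w` in the range of `ε'`, so `ε v ∈ E' = 0`, a contradiction.
-/

set_option autoImplicit false

namespace Pool.Agent.Lib.MP_640417_ag.Dt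

open Matrix Pool.Agent.Lib.MP_640417_ag.Gn

variable {K : Type} [Field K] {I : Type} [Fintype I] [DecidableEq I]

private lemma adj_transpose_mul {J : Matrix I I K} (hJ : J.det ≠ 0) (hs : Jᵀ = -J)
    (b : Matrix I I K) : (adj J b)ᵀ * J = J * b := by
  have h1 : J * J⁻¹ = 1 := Matrix.mul_nonsing_inv J hJ.isUnit
  have h2 : J⁻¹ᵀ * J = -1 := by
    have h3 : (J * J⁻¹)ᵀ = 1 := by rw [h1, Matrix.transpose_one]
    rw [Matrix.transpose_mul, hs, Matrix.mul_neg, neg_eq_iff_eq_neg] at h3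
    exact h3
  rw [adj, Matrix.transpose_mul, Matrix.transpose_mul, Matrix.transpose_transpose,
    Matrix.mul_assoc, Matrix.mul_assoc, h2, hs, Matrix.mul_neg, Matrix.mul_one, Matrix.neg_mul,
    Matrix.mul_neg, neg_neg]

private lemma adj_dot {J : Matrix I I K} (hJ : J.det ≠ 0) (hs : Jᵀ = -J) (b : Matrix I I K)
    (w v : I → K) : (adj J b *ᵥ w) ⬝ᵥ (J *ᵥ v) = w ⬝ᵥ (J *ᵥ (b *ᵥ v)) := by
  rw [← Matrix.vecMul_transpose, ← Matrix.dotProduct_mulVec, Matrix.mulVec_mulVec,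
    adj_transpose_mul hJ hs, ← Matrix.mulVec_mulVec]

private lemma eq_zero_of_dot {J : Matrix I I K} (hJ : J.det ≠ 0) (w : I → K)
    (h : ∀ v, w ⬝ᵥ (J *ᵥ v) = 0) : w = 0 := by
  funext i
  have h1 := h (J⁻¹ *ᵥ Pi.single i 1)
  rw [Matrix.mulVec_mulVec, Matrix.mul_nonsing_inv J hJ.isUnit, Matrix.one_mulVec,
    dotProduct_single, mul_one] at h1
  exact h1

private lemma exists_dot {J : Matrix I I K} (hJ : J.det ≠ 0) (f : (I → K) →ₗ[K] K) :
    ∃ v : I → K, ∀ w, f w = w ⬝ᵥ (J *ᵥ v) := by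
  refine ⟨J⁻¹ *ᵥ fun i => f (Pi.single i 1), fun w => ?_⟩
  rw [Matrix.mulVec_mulVec, Matrix.mul_nonsing_inv J hJ.isUnit, Matrix.one_mulVec]
  have h1 : w = ∑ i, w i • (Pi.single i 1 : I → K) := by
    funext j
    rw [Finset.sum_apply]
    simp [Pi.single_apply]
  conv_lhs => rw [h1]
  rw [map_sum, dotProduct]
  refine Finset.sum_congr rfl fun i _ => ?_
  rw [map_smul, smul_eq_mul]

/-- `hcm` is needed: the range of `ε` has to be stable under `C`. -/
theorem irr_adj {J : Matrix I I K} (hJ : J.det ≠ 0) (hs : Jᵀ = -J)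
    {C : Subalgebra K (Matrix I I K)} (hC : ∀ c ∈ C, adj J c ∈ C) {ε : Matrix I I K}
    (hε : ε * ε = ε) (hcm : Cm C ε) (h : Irr C ε) : Irr C (adj J ε) := by
  intro E hE hEC
  let E' : Submodule K (I → K) :=
    { carrier := {v | ε *ᵥ v = v ∧ ∀ w ∈ E, w ⬝ᵥ (J *ᵥ v) = 0}
      zero_mem' := ⟨Matrix.mulVec_zero _, fun w _ => by
        rw [Matrix.mulVec_zero, dotProduct_zero]⟩
      add_mem' := by
        rintro u v ⟨hu, hu'⟩ ⟨hv, hv'⟩
        refine ⟨by rw [Matrix.mulVec_add, hu, hv], fun w hw => ?_⟩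
        rw [Matrix.mulVec_add, dotProduct_add, hu' w hw, hv' w hw, add_zero]
      smul_mem' := by
        rintro r v ⟨hv, hv'⟩
        refine ⟨by rw [Matrix.mulVec_smul, hv], fun w hw => ?_⟩
        rw [Matrix.mulVec_smul, dotProduct_smul, hv' w hw, smul_zero] }
  have hE' : ∀ c ∈ C, ∀ v ∈ E', c *ᵥ v ∈ E' := by
    rintro c hc v ⟨hv, hv'⟩
    refine ⟨?_, fun w hw => ?_⟩
    · rw [Matrix.mulVec_mulVec, hcm c hc, ← Matrix.mulVec_mulVec, hv]
    · rw [← adj_dot hJ hs]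
      exact hv' _ (hEC _ (hC c hc) w hw)
  have hkey : ∀ w ∈ E, ∀ v, w ⬝ᵥ (J *ᵥ (ε *ᵥ v)) = w ⬝ᵥ (J *ᵥ v) := by
    intro w hw v
    rw [← adj_dot hJ hs, hE w hw]
  rcases h E' (fun v hv => hv.1) hE' with h0 | h0
  · right
    by_contra hcon
    push Not at hcon
    obtain ⟨v0, hv0⟩ := hcon
    obtain ⟨f, hf, hfE⟩ := Submodule.exists_dual_map_eq_bot_of_notMem hv0 inferInstance
    obtain ⟨v, hv⟩ := exists_dot hJ f
    have h1 : ε *ᵥ v ∈ E' := by
      refine ⟨by rw [Matrix.mulVec_mulVec, hε], fun w hw => ?_⟩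
      rw [hkey w hw, ← hv]
      have h2 : f w ∈ E.map f := Submodule.mem_map_of_mem hw
      rw [hfE, Submodule.mem_bot] at h2
      exact h2
    rw [h0, Submodule.mem_bot] at h1
    apply hf
    rw [hv, adj_dot hJ hs, h1, Matrix.mulVec_zero, dotProduct_zero]
  · left
    rw [Submodule.eq_bot_iff]
    intro w hw
    refine eq_zero_of_dot hJ w fun v => ?_
    rw [← hkey w hw]
    exact (h0 v).2 w hw

end Pool.Agent.Lib.MP_640417_ag.Dt
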