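import Pool.Agent.Lib.MP_640417_ag.Dt.Base
import Pool.Agent.Lib.MP_640417_ag.Dt.BiC

/-!
# MP_640417_ag, Dt, module ProjH (80 lines): semisimplicity of the Lie algebra

Let `U` be the open subgroup of `comm_small` (`Glob/Comm.lean`): for `γ ∈ U` there is `X ∈ Hh` such that `M γ` commutes with everything
which commutes with `X`, so `M γ` is a polynomial in `X` (`bicomm`). So a subspace `E` of `K^I` stable under `HpK` is stable under
`(M γ).map`, `γ ∈ U` (the polynomials in `X.map` preserve `E`), and `proj_K` (`Ty/RegK.lean`) gives the projection.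
-/

set_option autoImplicit false

namespace Pool.Agent.Lib.MP_640417_ag.Dt

open Matrix Pool.Agent.Lib.MP_640417_ag.Glob Pool.Agent.Lib.MP_640417_ag.Ctl
  Pool.Agent.Lib.MP_640417_ag.Ty

variable {F : Type} [NontriviallyNormedField F] {I : Type} [Fintype I] [DecidableEq I]
  {Γ : Type} [Group Γ] [TopologicalSpace Γ]
  [IsUltrametricDist F] [CompleteSpace F] [CharZero F] [IsTopologicalGroup Γ]
  [CompactSpace Γ] (ρ : MRep Γ F I)

theorem hpk_proj (l : ℕ) (hl : ‖(l : F)‖ < 1) (hl0 : (l : F) ≠ 0) (hsemi : ρ.Semi)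
    (K : Type) [Field K] [Algebra F K] (E : Submodule K (I → K))
    (hE : ∀ X ∈ HpK ρ l K, ∀ v ∈ E, X *ᵥ v ∈ E) :
    ∃ p : Matrix I I K, InCK ρ K p ∧ (∀ v, p *ᵥ v ∈ E) ∧ ∀ v ∈ E, p *ᵥ v = v := by
  obtain ⟨U, hU⟩ := comm_small ρ l hl hl0
  refine proj_K ρ K hsemi U E fun γ hγ => ?_
  obtain ⟨X, hX, hXc⟩ := hU γ hγ
  have h1 : ρ.M γ ∈ Algebra.adjoin F {X} := bicomm X (ρ.M γ) hXc
  generalize ρ.M γ = Z0 at h1 ⊢
  clear hXc
  induction h1 using Algebra.adjoin_induction with
  | mem Y hY =>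
    rw [Set.mem_singleton_iff] at hY
    subst hY
    exact hE _ (Submodule.subset_span ⟨Y, Submodule.mem_sup_left hX, rfl⟩)
  | algebraMap r =>
    intro y hy
    have h2 : (algebraMap F (Matrix I I F) r).map (algebraMap F K) =
        algebraMap F K r • (1 : Matrix I I K) := by
      ext i j
      rw [Matrix.map_apply, Matrix.algebraMap_matrix_apply, Matrix.smul_apply, Matrix.one_apply]
      split_ifs <;> simp
    rw [h2, Matrix.smul_mulVec, Matrix.one_mulVec]
    exact E.smul_mem _ hy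
  | add Y Z _ _ hY hZ =>
    intro y hy
    rw [Matrix.map_add _ (map_add _), Matrix.add_mulVec]
    exact E.add_mem (hY y hy) (hZ y hy)
  | mul Y Z _ _ hY hZ =>
    intro y hy
    rw [Matrix.map_mul, ← Matrix.mulVec_mulVec]
    exact hY _ (hZ y hy)

end Pool.Agent.Lib.MP_640417_ag.Dt
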