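import Pool.Agent.Lib.MP_640417_ag.Dt.Wts
import Pool.Agent.Lib.MP_640417_ag.Dt.IrrA
import Pool.Agent.Lib.MP_640417_ag.Dt.Ideal
import Pool.Agent.Lib.MP_640417_ag.Dt.ProjH

/-!
# MP_640417_ag, Dt, module MainD: one detecting element gives the whole Lie algebra
-/

set_option autoImplicit false

namespace Pool.Agent.Lib.MP_640417_ag.Dt

open Matrix Pool.Agent.Lib.MP_640417_ag.Glob Pool.Agent.Lib.MP_640417_ag.Ctl
  Pool.Agent.Lib.MP_640417_ag.Ty Pool.Agent.Lib.MP_640417_ag.Gn

variable {F : Type} [NontriviallyNormedField F] {I : Type} [Fintype I] [DecidableEq I]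
  {Γ : Type} [Group Γ] [TopologicalSpace Γ]
  [IsUltrametricDist F] [CompleteSpace F] [CharZero F] [IsTopologicalGroup Γ]
  [CompactSpace Γ] (ρ : MRep Γ F I)

theorem detK (J : Matrix I I F) (hJ : J.det ≠ 0) (K : Type) [Field K] [Algebra F K] :
    (J.map (algebraMap F K)).det ≠ 0 := by
  rw [show J.map (algebraMap F K) = (algebraMap F K).mapMatrix J from rfl, ← RingHom.map_det]
  exact (map_ne_zero _).mpr hJ

theorem altK (K : Type) [Field K] [Algebra F K] :
    (ρ.J.map (algebraMap F K))ᵀ = -ρ.J.map (algebraMap F K) := by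
  rw [← Matrix.transpose_map, J_skew]
  ext i j
  simp

theorem gK (γ : Γ) (K : Type) [Field K] [Algebra F K] :
    ((ρ.M γ).map (algebraMap F K))ᵀ * ρ.J.map (algebraMap F K) * (ρ.M γ).map (algebraMap F K) =
      algebraMap F K (ρ.μ γ : F) • ρ.J.map (algebraMap F K) := by
  have h := congrArg (fun A : Matrix I I F => A.map (algebraMap F K)) (ρ.eq γ)
  simp only [Matrix.map_mul, Matrix.transpose_map] at h
  rw [h]
  ext i j
  simp

theorem skewK {X : Matrix I I F} (hX : X ∈ spJ ρ.J) (K : Type) [Field K] [Algebra F K] :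
    (X.map (algebraMap F K))ᵀ * ρ.J.map (algebraMap F K) +
      ρ.J.map (algebraMap F K) * X.map (algebraMap F K) = 0 := by
  rw [← Matrix.transpose_map, ← Matrix.map_mul, ← Matrix.map_mul,
    ← Matrix.map_add _ (map_add _), mem_spJ.mp hX, Matrix.map_zero _ (map_zero _)]

/-- what commutes with the commutant over `F` commutes with the commutant over `K` -/
theorem cmK {X : Matrix I I F} (hX : ∀ b, ρ.InC b → X * b = b * X) (K : Type) [Field K]
    [Algebra F K] {b : Matrix I I K} (hb : InCK ρ K b) :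
    X.map (algebraMap F K) * b = b * X.map (algebraMap F K) := by
  have h1 := inCK_span ρ K hb
  clear hb
  induction h1 using Submodule.span_induction with
  | mem x hx =>
    obtain ⟨b, hb, rfl⟩ := hx
    rw [← Matrix.map_mul, hX b hb, Matrix.map_mul]
  | zero => rw [Matrix.mul_zero, Matrix.zero_mul]
  | add x y _ _ hx hy => rw [Matrix.mul_add, Matrix.add_mul, hx, hy]
  | smul r x _ hx => rw [Matrix.mul_smul, Matrix.smul_mul, hx]

/-- `HpK` satisfies the conditions of `LData` -/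
theorem ldata (l : ℕ) (hl : ‖(l : F)‖ < 1) (hl0 : (l : F) ≠ 0) (hsemi : ρ.Semi) (K : Type)
    [Field K] [Algebra F K] :
    LData (ρ.J.map (algebraMap F K)) (HpK ρ l K) (cK ρ K) where
  det := detK ρ.J ρ.det K
  alt := altK ρ K
  lie X hX Y hY := hpk_lie ρ l hl hl0 K hX hY
  skew X hX := (adj_skew (detK ρ.J ρ.det K) X).mp (hpk_skew ρ l hl hl0 K hX)
  cm X hX c hc := hpk_comm ρ l hl hl0 K hX hc
  adjC c hc := inCK_adj ρ K hc
  proj E hE := hpk_proj ρ l hl hl0 hsemi K E hE

theorem mem_of_detects (l : ℕ) (hl : ‖(l : F)‖ < 1) (hl0 : (l : F) ≠ 0) (hsemi : ρ.Semi)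
    (hfull : Full0 ρ) (K : Type) [Field K] [Algebra F K] [IsAlgClosed K] {γ : Γ}
    (h : DetectsM ρ K γ) {X : Matrix I I F} (hX : X ∈ spJ ρ.J)
    (hc : ∀ b, ρ.InC b → X * b = b * X) : X ∈ Hp ρ l := by
  have : CharZero K := charZero_of_injective_algebraMap (algebraMap F K).injective
  obtain ⟨c, hcz, hcc⟩ := exists_cc ρ hsemi
  have L := ldata ρ l hl hl0 hsemi K
  have hcg : c.map (algebraMap F K) * (ρ.M γ).map (algebraMap F K) =
      (ρ.M γ).map (algebraMap F K) * c.map (algebraMap F K) := by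
    rw [← Matrix.map_mul, ← Matrix.map_mul, h.1 c hcz.1]
  obtain ⟨D⟩ := exists_wdec (ρ.J.map (algebraMap F K)) ((ρ.M γ).map (algebraMap F K))
    (c.map (algebraMap F K)) (algebraMap F K (ρ.μ γ : F)) L.det L.alt
    ((map_ne_zero _).mpr (Units.ne_zero _)) (gK ρ γ K) (skewK ρ hcz.2.2 K) hcg
    (zm_ss ρ hsemi hcz K)
  have hcc1 : ∀ z ∈ Zm ρ, ∃ R, d4 z = R * d4 c := fun z hz => (hcc z hz).1
  have hE : ∀ a : {a : Fin D.n // IsoI D a ∧ Irr (cK ρ K) (D.ε a)},
      EData (ρ.J.map (algebraMap F K)) (HpK ρ l K) (cK ρ K) (D.ε a.1) := by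
    rintro ⟨a, ha1, ha2⟩
    have hcm : Cm (cK ρ K) (D.ε a) := fun b hb =>
      (D.comm a b (inCK_full ρ K hfull hb γ).symm (cmK ρ hcz.2.1 K hb).symm).symm
    exact {
      idem := D.idem a
      cm := hcm
      dual := by
        rw [D.star]
        exact D.orth _ _ (Ne.symm ha1.1)
      dual' := by
        rw [D.star]
        exact D.orth _ _ ha1.1
      irr := ha2
      irr' := irr_adj L.det L.alt L.adjC (D.idem a) hcm ha2
      mem := by
        rw [D.star]
        exact delta_mem ρ l hl hl0 hsemi hfull K γ h.2.1 hcz D a ha1 }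
  have h1 := all_skew L (fun a : {a : Fin D.n // IsoI D a ∧ Irr (cK ρ K) (D.ε a)} => D.ε a.1) hE
    (fun b hb hb0 => det_index ρ hsemi hfull K γ hcz hcc1 D h b hb
      fun a ha1 ha2 => hb0 ⟨a, ha1, ha2⟩) (X := X.map (algebraMap F K))
    (fun b hb => cmK ρ hc K hb) ((adj_skew L.det _).mp (skewK ρ hX K))
  exact hpk_mem ρ l hl hl0 K h1

end Pool.Agent.Lib.MP_640417_ag.Dt
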