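import Pool.Agent.Lib.MP_640417_ag.Gn.DefM
import Pool.Agent.Lib.MP_640417_ag.Gn.CC
import Pool.Agent.Lib.MP_640417_ag.Dt.Delta
import Pool.Agent.Lib.MP_640417_ag.Dt.AlgA
import Pool.Agent.Lib.MP_640417_ag.Ty.KRect

/-!
# MP_640417_ag, Dt, module Wts (250 lines): weights and indices

`g = (M γ).map`, `c` is the generic element of `Zm` (`exists_cc`), `D : WDec J' g c' μ'` with `c' = c.map`.
* `exists_kap`: let `z ∈ Zm`, `z' = z.map`. `z'` commutes with `g` (`Full0`) and `c'` (elements of `Zm` are in the commutant and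
  commute with it), so with `ε a`, and is semisimple (`zm_ss`). Let `α ≠ β` be two eigenvalues of `z'` on the range of `ε a`, with
  (nonzero) projections `e_α`, `e_β` onto the eigenspaces in the range of `ε a` (polynomials in `z'` times `ε a`; or any nonzero
  matrices `e` with `ε a e = e`, `z' e = α e` built from an eigenvector). For `f = adj J' e_β`: `z' f = - β f` (if `e_β` commutes
  with `z'`), `c' f = - k_a f`. `d4 c'` is zero on `q4 e_α f e_α f` (`d4_mul_q4`), so `d4 z' = R d4 c'` is zero on it (`hcc`, mapped to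
  `K`), but it is `2 (α - β)` on it, and `q4 e_α f e_α f ≠ 0` (`q4_ne`). So `z'` has one eigenvalue on the range of `ε a`, it is
  semisimple, so it is a scalar there.
* `wt_eq`: `≤`: `D.mem` and `D.inj` (for `v ≠ 0` in `WtM`, `c' v = κ c v` and `κ c = D.k a` as `ε a ≠ 0`); `≥`: `D.range`, `hκ`.
* `isoI_of`: not self-dual: if `st a = a` then `z a ^ 2 = μ'`, and for `z ∈ Zm`: `z' ε a = κ z ε a`; apply `adj`: `- ε a z' = κ z ε a`
  (`D.star`), so `2 κ z = 0`. Relation: let `κ_b`, `κ_u`, `κ_v` be given by `exists_kap`. `d4 c'` is zero on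
  `q4 (ε a) (ε b) (ε u) (ε v)`, so `d4 z'` is, so `κ z + κ_b z + κ_u z + κ_v z = 0`. The isolation (`N = 1`) gives a dual weight, say
  `z_a z_b = μ'`, `κ c + κ_b c = 0`, so `b = st a` (`D.inj`, `D.zdual`, `D.kdual`, `κ c = k a`, `κ_b c = k b`).
  Irreducibility: `wt_eq`; subspaces stable under `cK` are stable under all `b.map`.
* `det_index`: let `(z, κ)` be isolated and `0 ≠ y ∈ WtM z κ`. `D.mem` gives `a`; `κ = κ_a` on `Zm`, so `(z_a, κ_a)` is isolated (the
  definition depends only on the restriction of `κ` to `Zm`), so `a` is as in `isoI_of`, and `c y = c ε_a y = 0`.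
-/

set_option autoImplicit false

namespace Pool.Agent.Lib.MP_640417_ag.Dt

open Matrix Pool.Agent.Lib.MP_640417_ag.Glob Pool.Agent.Lib.MP_640417_ag.Ctl
  Pool.Agent.Lib.MP_640417_ag.Ty Pool.Agent.Lib.MP_640417_ag.Gn

section aux

variable {K : Type} [Field K] {I : Type} [Fintype I] [DecidableEq I]

private theorem wts_rel {Z C : Matrix I I K} {R : Matrix (I × I × I × I) (I × I × I × I) K}
    (hR : d4 Z = R * d4 C) (e : Fin 4 → Matrix I I K) (x k : Fin 4 → K) (he : ∀ i, e i ≠ 0)
    (hx : ∀ i, Z * e i = x i • e i) (hk : ∀ i, C * e i = k i • e i)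
    (h0 : k 0 + k 1 + k 2 + k 3 = 0) : x 0 + x 1 + x 2 + x 3 = 0 := by
  have h1 := d4_mul_q4 Z e x hx
  rw [hR, Matrix.mul_assoc, d4_mul_q4 C e k hk, h0, zero_smul, Matrix.mul_zero] at h1
  exact (smul_eq_zero.mp h1.symm).resolve_right (q4_ne he)

/-- a joint eigenvector in the dual weight space -/
private theorem wts_dual {J Z E E' : Matrix I I K} (hJ : J.det ≠ 0) (hZ : Zᵀ * J + J * Z = 0)
    (hE' : adj J E = E') (hidem : E' * E' = E') (hcomm : Z * E' = E' * Z) {w : I → K}
    (hw : w ≠ 0) (hEw : E *ᵥ w = w) {β : K} (hβ : Z *ᵥ w = β • w) :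
    ∃ u : I → K, u ≠ 0 ∧ E' *ᵥ u = u ∧ Z *ᵥ u = (-β) • u := by
  have hJE : J * E' = Eᵀ * J := by
    rw [← hE']
    unfold adj
    rw [← Matrix.mul_assoc, ← Matrix.mul_assoc, Matrix.mul_nonsing_inv J (IsUnit.mk0 _ hJ),
      Matrix.one_mul]
  have hr0 : w ᵥ* J ≠ 0 := by
    intro h
    exact hJ (Matrix.exists_vecMul_eq_zero_iff.mp ⟨w, hw, h⟩)
  have hrZ : (w ᵥ* J) ᵥ* Z = (-β) • (w ᵥ* J) := by
    rw [Matrix.vecMul_vecMul, show J * Z = -(Zᵀ * J) from (neg_eq_of_add_eq_zero_right hZ).symm,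
      Matrix.vecMul_neg, ← Matrix.vecMul_vecMul, Matrix.vecMul_transpose, hβ, Matrix.smul_vecMul,
      neg_smul]
  have hrE : (w ᵥ* J) ᵥ* E' = w ᵥ* J := by
    rw [Matrix.vecMul_vecMul, hJE, ← Matrix.vecMul_vecMul, Matrix.vecMul_transpose, hEw]
  have hrN : (w ᵥ* J) ᵥ* ((Z + β • 1) * E' + (1 - E')) = 0 := by
    rw [Matrix.vecMul_add, ← Matrix.vecMul_vecMul, Matrix.vecMul_add, hrZ, Matrix.vecMul_sub,
      Matrix.vecMul_one, hrE, sub_self, add_zero, Matrix.vecMul_smul, Matrix.vecMul_one, neg_smul,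
      neg_add_cancel, Matrix.zero_vecMul]
  have hdet := Matrix.exists_vecMul_eq_zero_iff.mp ⟨_, hr0, hrN⟩
  obtain ⟨u, hu, hNu⟩ := Matrix.exists_mulVec_eq_zero_iff.mpr hdet
  have h1 : E' * ((Z + β • 1) * E' + (1 - E')) = (Z + β • 1) * E' := by
    rw [Matrix.mul_add, ← Matrix.mul_assoc, Matrix.mul_add, ← hcomm, Matrix.mul_smul,
      Matrix.mul_one, Matrix.add_mul, Matrix.mul_assoc, hidem, Matrix.smul_mul, hidem,
      Matrix.mul_sub, Matrix.mul_one, hidem, sub_self, add_zero, Matrix.add_mul, Matrix.smul_mul,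
      Matrix.one_mul]
  have h2 : ((Z + β • 1) * E') *ᵥ u = 0 := by
    rw [← h1, ← Matrix.mulVec_mulVec, hNu, Matrix.mulVec_zero]
  have h3 : E' *ᵥ u = u := by
    rw [Matrix.add_mulVec, h2, zero_add, Matrix.sub_mulVec, Matrix.one_mulVec] at hNu
    exact (sub_eq_zero.mp hNu).symm
  refine ⟨u, hu, h3, ?_⟩
  rw [← Matrix.mulVec_mulVec, h3, Matrix.add_mulVec, Matrix.smul_mulVec, Matrix.one_mulVec] at h2
  rw [neg_smul]
  exact eq_neg_of_add_eq_zero_left h2

private theorem wts_span [IsAlgClosed K] {Z E : Matrix I I K}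
    (h : Module.End.IsSemisimple (Matrix.toLin' Z)) (hcomm : Z * E = E * Z) {s : K}
    (hs : ∀ (α : K) (v : I → K), Z *ᵥ v = α • v → E *ᵥ v = 0 ∨ α = s) : Z * E = s • E := by
  have htop : (⨆ α, Module.End.maxGenEigenspace (Matrix.toLin' Z) α) = ⊤ :=
    Module.End.iSup_maxGenEigenspace_eq_top _
  have hle : (⊤ : Submodule K (I → K)) ≤ LinearMap.ker (Matrix.toLin' (Z * E - s • E)) := by
    rw [← htop]
    refine iSup_le fun α v hv => ?_
    rw [h.isFinitelySemisimple.maxGenEigenspace_eq_eigenspace, Module.End.mem_eigenspace_iff,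
      Matrix.toLin'_apply] at hv
    rw [LinearMap.mem_ker, Matrix.toLin'_apply, Matrix.sub_mulVec, hcomm, ← Matrix.mulVec_mulVec,
      hv, Matrix.smul_mulVec, Matrix.mulVec_smul, ← sub_smul]
    rcases hs α v hv with h1 | h1
    · rw [h1, smul_zero]
    · rw [h1, sub_self, zero_smul]
  have h1 : Matrix.toLin' (Z * E - s • E) = 0 := by
    rw [← LinearMap.ker_eq_top, eq_top_iff]
    exact hle
  have h2 : Z * E - s • E = 0 := by
    rw [← Matrix.toLin'.map_zero] at h1
    exact Matrix.toLin'.injective h1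
  exact sub_eq_zero.mp h2

private theorem wts_col {y : I → K} (hy : y ≠ 0) : Matrix.vecMulVec y (fun _ : I => (1 : K)) ≠ 0 := by
  intro h
  apply hy
  ext i
  have h1 := congrFun (congrFun h i) i
  rwa [Matrix.vecMulVec_apply, mul_one] at h1

private theorem wts_colmul {Z : Matrix I I K} {y : I → K} {α : K} (h : Z *ᵥ y = α • y) :
    Z * Matrix.vecMulVec y (fun _ : I => (1 : K)) =
      α • Matrix.vecMulVec y (fun _ : I => (1 : K)) := by
  rw [Matrix.mul_vecMulVec, h, Matrix.smul_vecMulVec]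

private theorem wts_adjsmul (J : Matrix I I K) (s : K) (e : Matrix I I K) :
    adj J (s • e) = s • adj J e := by
  unfold adj
  rw [Matrix.transpose_smul, Matrix.mul_smul, Matrix.smul_mul]

end aux

variable {F : Type} [NontriviallyNormedField F] {I : Type} [Fintype I] [DecidableEq I]
  {Γ : Type} [Group Γ] [TopologicalSpace Γ]
  [IsUltrametricDist F] [CompleteSpace F] [CharZero F] [IsTopologicalGroup Γ]
  [CompactSpace Γ] (ρ : MRep Γ F I) (hsemi : ρ.Semi) (hfull : Full0 ρ) (K : Type) [Field K]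
  [Algebra F K] [IsAlgClosed K] (γ : Γ) {c : Matrix I I F} (hc : c ∈ Zm ρ)
  (hcc : ∀ z ∈ Zm ρ, ∃ R, d4 z = R * d4 c)
  (D : WDec (ρ.J.map (algebraMap F K)) ((ρ.M γ).map (algebraMap F K))
      (c.map (algebraMap F K)) (algebraMap F K (ρ.μ γ : F)))

omit [IsUltrametricDist F] [CompleteSpace F] [CharZero F] [IsTopologicalGroup Γ] [CompactSpace Γ]
  [IsAlgClosed K] in
private theorem wts_detK : (ρ.J.map (algebraMap F K)).det ≠ 0 := by
  rw [show ρ.J.map (algebraMap F K) = (algebraMap F K).mapMatrix ρ.J from rfl, ← RingHom.map_det]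
  exact (map_ne_zero _).mpr ρ.det

omit [IsUltrametricDist F] [CompleteSpace F] [CharZero F] [IsTopologicalGroup Γ] [CompactSpace Γ]
  [IsAlgClosed K] in
private theorem wts_skew {z : Matrix I I F} (hz : z ∈ Zm ρ) :
    (z.map (algebraMap F K))ᵀ * ρ.J.map (algebraMap F K) +
      ρ.J.map (algebraMap F K) * z.map (algebraMap F K) = 0 := by
  rw [← Matrix.transpose_map, ← Matrix.map_mul, ← Matrix.map_mul,
    ← Matrix.map_add _ (map_add _), mem_spJ.mp hz.2.2, Matrix.map_zero _ (map_zero _)]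

omit [IsUltrametricDist F] [CompleteSpace F] [CharZero F] [IsTopologicalGroup Γ] [CompactSpace Γ]
  [IsAlgClosed K] in
include hcc in
private theorem wts_R {z : Matrix I I F} (hz : z ∈ Zm ρ) :
    ∃ R, d4 (z.map (algebraMap F K)) = R * d4 (c.map (algebraMap F K)) := by
  obtain ⟨R, hR⟩ := hcc z hz
  refine ⟨R.map (algebraMap F K), ?_⟩
  rw [← d4_map, ← d4_map, ← Matrix.map_mul, hR]

omit [IsUltrametricDist F] [CompleteSpace F] [CharZero F] [IsTopologicalGroup Γ] [CompactSpace Γ]
  [IsAlgClosed K] in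
include hfull hc in
private theorem wts_comm {z : Matrix I I F} (hz : z ∈ Zm ρ) (a : Fin D.n) :
    z.map (algebraMap F K) * D.ε a = D.ε a * z.map (algebraMap F K) := by
  refine D.comm a _ ?_ ?_
  · rw [← Matrix.map_mul, ← Matrix.map_mul, hfull z hz.1 γ]
  · rw [← Matrix.map_mul, ← Matrix.map_mul, hz.2.1 c hc.1]

include hsemi hfull hc hcc

theorem exists_kap (a : Fin D.n) :
    ∃ κ : Matrix I I F → K, ∀ z ∈ Zm ρ, z.map (algebraMap F K) * D.ε a = κ z • D.ε a := by
  have h2 : (2 : K) ≠ 0 := by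
    have : CharZero K := charZero_of_injective_algebraMap (algebraMap F K).injective
    exact two_ne_zero
  have key : ∀ z ∈ Zm ρ, ∃ s : K, z.map (algebraMap F K) * D.ε a = s • D.ε a := by
    intro z hz
    have hcomm := wts_comm ρ hfull K γ hc D hz
    obtain ⟨R, hR⟩ := wts_R ρ K hcc hz
    by_cases hex : ∃ (α : K) (v : I → K), z.map (algebraMap F K) *ᵥ v = α • v ∧ D.ε a *ᵥ v ≠ 0
    · obtain ⟨α₀, v₀, h0, h0'⟩ := hex
      refine ⟨α₀, wts_span (zm_ss ρ hsemi hz K) (hcomm a) fun α v hv => ?_⟩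
      by_cases hEv : D.ε a *ᵥ v = 0
      · exact Or.inl hEv
      · right
        have hid : ∀ w : I → K, D.ε a *ᵥ (D.ε a *ᵥ w) = D.ε a *ᵥ w := fun w => by
          rw [Matrix.mulVec_mulVec, D.idem]
        have heig : ∀ (β : K) (w : I → K), z.map (algebraMap F K) *ᵥ w = β • w →
            z.map (algebraMap F K) *ᵥ (D.ε a *ᵥ w) = β • (D.ε a *ᵥ w) := fun β w hw => by
          rw [Matrix.mulVec_mulVec, hcomm, ← Matrix.mulVec_mulVec, hw, Matrix.mulVec_smul]
        obtain ⟨u, hu, hu1, hu2⟩ := wts_dual (wts_detK ρ K) (wts_skew ρ K hz) (D.star a)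
          (D.idem _) (hcomm _) h0' (hid v₀) (heig α₀ v₀ h0)
        have hck : ∀ (b : Fin D.n) (w : I → K), D.ε b *ᵥ w = w →
            c.map (algebraMap F K) *ᵥ w = D.k b • w := fun b w hw => by
          rw [← hw, Matrix.mulVec_mulVec, D.ceig, Matrix.smul_mulVec]
        have hrel := wts_rel hR
          ![Matrix.vecMulVec (D.ε a *ᵥ v) (fun _ : I => (1 : K)),
            Matrix.vecMulVec u (fun _ : I => (1 : K)),
            Matrix.vecMulVec (D.ε a *ᵥ v) (fun _ : I => (1 : K)),
            Matrix.vecMulVec u (fun _ : I => (1 : K))]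
          ![α, -α₀, α, -α₀] ![D.k a, D.k (D.st a), D.k a, D.k (D.st a)]
          (by
            intro i
            fin_cases i
            · exact wts_col hEv
            · exact wts_col hu
            · exact wts_col hEv
            · exact wts_col hu)
          (by
            intro i
            fin_cases i
            · exact wts_colmul (heig α v hv)
            · exact wts_colmul hu2
            · exact wts_colmul (heig α v hv)
            · exact wts_colmul hu2)
          (by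
            intro i
            fin_cases i
            · exact wts_colmul (hck a _ (hid v))
            · exact wts_colmul (hck _ _ hu1)
            · exact wts_colmul (hck a _ (hid v))
            · exact wts_colmul (hck _ _ hu1))
          (by
            show D.k a + D.k (D.st a) + D.k a + D.k (D.st a) = 0
            linear_combination 2 * D.kdual a)
        have hrel' : α + -α₀ + α + -α₀ = 0 := hrel
        have h3 : (2 : K) * (α - α₀) = 0 := by linear_combination hrel'
        exact sub_eq_zero.mp ((mul_eq_zero.mp h3).resolve_left h2)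
    · push Not at hex
      exact ⟨0, wts_span (zm_ss ρ hsemi hz K) (hcomm a) fun α v hv => Or.inl (hex α v hv)⟩
  classical
  choose! κ hκ using key
  exact ⟨κ, hκ⟩

theorem wt_eq (a : Fin D.n) (κ : Matrix I I F → K)
    (hκ : ∀ z ∈ Zm ρ, z.map (algebraMap F K) * D.ε a = κ z • D.ε a) :
    WtM ρ K γ (D.z a) κ = LinearMap.range (Matrix.toLin' (D.ε a)) := by
  have hkc : κ c = D.k a := by
    have h1 := hκ c hc
    rw [D.ceig, ← sub_eq_zero, ← sub_smul] at h1
    exact (sub_eq_zero.mp ((smul_eq_zero.mp h1).resolve_right (D.ne a))).symm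
  ext v
  unfold WtM
  rw [Submodule.mem_inf, Submodule.mem_iInf]
  constructor
  · rintro ⟨h1, h2⟩
    by_cases hv : v = 0
    · rw [hv]
      exact Submodule.zero_mem _
    · have h3 := h2 ⟨c, hc⟩
      rw [Module.End.mem_eigenspace_iff, Matrix.toLin'_apply] at h3
      obtain ⟨b, hb1, hb2, hb3⟩ := D.mem hv h1 h3
      have hba : b = a := D.inj b a hb1 (by rw [hb2]; exact hkc)
      subst hba
      exact ⟨v, by rw [Matrix.toLin'_apply, hb3]⟩
  · rintro ⟨w, rfl⟩
    rw [Matrix.toLin'_apply]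
    refine ⟨D.range a w, fun z => ?_⟩
    rw [Module.End.mem_eigenspace_iff, Matrix.toLin'_apply, Matrix.mulVec_mulVec, hκ z.1 z.2,
      Matrix.smul_mulVec]

theorem isoI_of (a : Fin D.n) (κ : Matrix I I F → K)
    (hκ : ∀ z ∈ Zm ρ, z.map (algebraMap F K) * D.ε a = κ z • D.ε a)
    (h : IsolatedM ρ K γ (D.z a) κ) : IsoI D a ∧ Irr (cK ρ K) (D.ε a) := by
  have h2 : (2 : K) ≠ 0 := by
    have : CharZero K := charZero_of_injective_algebraMap (algebraMap F K).injective
    exact two_ne_zero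
  have hμ : algebraMap F K (ρ.μ γ : F) ≠ 0 := (map_ne_zero _).mpr (Units.ne_zero _)
  have hkc : ∀ (b : Fin D.n) (κ' : Matrix I I F → K),
      (∀ z ∈ Zm ρ, z.map (algebraMap F K) * D.ε b = κ' z • D.ε b) → κ' c = D.k b := by
    intro b κ' hκ'
    have h1 := hκ' c hc
    rw [D.ceig, ← sub_eq_zero, ← sub_smul] at h1
    exact (sub_eq_zero.mp ((smul_eq_zero.mp h1).resolve_right (D.ne b))).symm
  have hwt := wt_eq ρ hsemi hfull K γ hc hcc D
  have hne : ∀ (b : Fin D.n) (κ' : Matrix I I F → K),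
      (∀ z ∈ Zm ρ, z.map (algebraMap F K) * D.ε b = κ' z • D.ε b) →
      WtM ρ K γ (D.z b) κ' ≠ ⊥ := by
    intro b κ' hκ' hbot
    rw [hwt b κ' hκ', LinearMap.range_eq_bot] at hbot
    apply D.ne b
    rw [← Matrix.toLin'.map_zero] at hbot
    exact Matrix.toLin'.injective hbot
  have hz0 : D.z a ≠ 0 := by
    intro h0
    have h1 := D.zdual a
    rw [h0, zero_mul] at h1
    exact hμ h1.symm
  have hdual : ∀ (b : Fin D.n) (κ' : Matrix I I F → K),
      (∀ z ∈ Zm ρ, z.map (algebraMap F K) * D.ε b = κ' z • D.ε b) →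
      DualM ρ K γ (D.z a) κ (D.z b) κ' → b = D.st a := by
    rintro b κ' hκ' ⟨h1, h3⟩
    apply D.inj
    · exact mul_left_cancel₀ hz0 (h1.trans (D.zdual a).symm)
    · have h4 := h3 c hc
      rw [hkc a κ hκ, hkc b κ' hκ'] at h4
      have h5 := D.kdual a
      linear_combination h4 - h5
  refine ⟨⟨?_, ?_⟩, ?_⟩
  · -- not self-dual
    intro hst
    apply h.1
    refine ⟨by
      have h1 := D.zdual a
      rwa [hst] at h1, fun z hz => ?_⟩
    have hcomm := wts_comm ρ hfull K γ hc D hz a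
    have h3 := congrArg (adj (ρ.J.map (algebraMap F K))) (hκ z hz)
    rw [adj_mul (wts_detK ρ K), wts_adjsmul, D.star, hst,
      (adj_skew (wts_detK ρ K) _).mp (wts_skew ρ K hz), Matrix.mul_neg, ← hcomm, hκ z hz,
      ← neg_smul, ← sub_eq_zero, ← sub_smul] at h3
    have h4 := (smul_eq_zero.mp h3).resolve_right (D.ne a)
    linear_combination -h4
  · intro b u v hk hz
    obtain ⟨κb, hb⟩ := exists_kap ρ hsemi hfull K γ hc hcc D b
    obtain ⟨κu, hu⟩ := exists_kap ρ hsemi hfull K γ hc hcc D u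
    obtain ⟨κv, hv⟩ := exists_kap ρ hsemi hfull K γ hc hcc D v
    have h3 := h.2.2 (D.z b) κb (D.z u) κu (D.z v) κv (hne b κb hb) (hne u κu hu) (hne v κv hv)
      (by
        intro z hz'
        obtain ⟨R, hR⟩ := wts_R ρ K hcc hz'
        have hrel := wts_rel hR ![D.ε a, D.ε b, D.ε u, D.ε v] ![κ z, κb z, κu z, κv z]
          ![D.k a, D.k b, D.k u, D.k v]
          (by
            intro i
            fin_cases i
            · exact D.ne a
            · exact D.ne b
            · exact D.ne u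
            · exact D.ne v)
          (by
            intro i
            fin_cases i
            · exact hκ z hz'
            · exact hb z hz'
            · exact hu z hz'
            · exact hv z hz')
          (by
            intro i
            fin_cases i
            · exact D.ceig a
            · exact D.ceig b
            · exact D.ceig u
            · exact D.ceig v)
          hk
        exact hrel) 1 one_pos (by rw [pow_one, mul_one]; exact hz)
    rcases h3 with h3 | h3 | h3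
    · exact Or.inl (hdual b κb hb h3)
    · exact Or.inr (Or.inl (hdual u κu hu h3))
    · exact Or.inr (Or.inr (hdual v κv hv h3))
  · intro E hE1 hE2
    have h3 := h.2.1 E (by
      intro v hv
      rw [hwt a κ hκ]
      exact ⟨v, by rw [Matrix.toLin'_apply, hE1 v hv]⟩) (by
      intro b hb y hy
      exact hE2 _ (inCK_map ρ K hb) y hy)
    rcases h3 with h3 | h3
    · exact Or.inl h3
    · right
      intro v
      rw [h3, hwt a κ hκ]
      exact ⟨v, by rw [Matrix.toLin'_apply]⟩

theorem iso_kill (b : Matrix I I K)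
    (h0 : ∀ a, IsoI D a → Irr (cK ρ K) (D.ε a) → b * D.ε a = 0) (z : K) (κ : Matrix I I F → K)
    (hiso : IsolatedM ρ K γ z κ) (y : I → K) (hy : y ∈ WtM ρ K γ z κ) : b *ᵥ y = 0 := by
  by_cases hy0 : y = 0
  · rw [hy0, Matrix.mulVec_zero]
  unfold WtM at hy
  rw [Submodule.mem_inf, Submodule.mem_iInf] at hy
  obtain ⟨h1, h2⟩ := hy
  have h3 : ∀ z ∈ Zm ρ, z.map (algebraMap F K) *ᵥ y = κ z • y := by
    intro z hz
    have h4 := h2 ⟨z, hz⟩
    rwa [Module.End.mem_eigenspace_iff, Matrix.toLin'_apply] at h4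
  obtain ⟨a, ha1, ha2, ha3⟩ := D.mem hy0 h1 (h3 c hc)
  obtain ⟨κa, hκa⟩ := exists_kap ρ hsemi hfull K γ hc hcc D a
  have hκ : ∀ z ∈ Zm ρ, z.map (algebraMap F K) * D.ε a = κ z • D.ε a := by
    intro z hz
    rw [hκa z hz]
    congr 1
    have h4 : z.map (algebraMap F K) *ᵥ y = κa z • y := by
      conv_lhs => rw [← ha3]
      rw [Matrix.mulVec_mulVec, hκa z hz, Matrix.smul_mulVec, ha3]
    rw [h3 z hz, ← sub_eq_zero, ← sub_smul] at h4
    exact (sub_eq_zero.mp ((smul_eq_zero.mp h4).resolve_right hy0)).symm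
  subst ha1
  obtain ⟨h5, h6⟩ := isoI_of ρ hsemi hfull K γ hc hcc D a κ hκ hiso
  rw [← ha3, Matrix.mulVec_mulVec, h0 a h5 h6, Matrix.zero_mulVec]

theorem det_index (h : DetectsM ρ K γ) (b : Matrix I I K) (hb : InCK ρ K b)
    (h0 : ∀ a, IsoI D a → Irr (cK ρ K) (D.ε a) → b * D.ε a = 0) : b = 0 :=
  h.2.2 b hb fun z κ hiso y hy => iso_kill ρ hsemi hfull K γ hc hcc D b h0 z κ hiso y hy

end Pool.Agent.Lib.MP_640417_ag.Dt
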